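import Pool.Agent.Results.MP_c17804_co.CriticalJoins

/-!
Helper lemmas: complete joins of critical graphs, cliques and edges of Hajos joins.
-/

set_option autoImplicit false

namespace Pool.Agent.R55.HJ

open SimpleGraph Pool.Agent.Results.MP_c17804_co.CriticalJoins

/-- The complete join of two graphs. -/
def cj {V W : Type} (G : SimpleGraph V) (H : SimpleGraph W) : SimpleGraph (V ⊕ W) where
  Adj a b := match a, b with
    | Sum.inl u, Sum.inl v => G.Adj u v
    | Sum.inr u, Sum.inr v => H.Adj u v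
    | Sum.inl _, Sum.inr _ => True
    | Sum.inr _, Sum.inl _ => True
  symm := ⟨by rintro (a | a) (b | b) h <;> simp_all [SimpleGraph.adj_comm]⟩
  loopless := ⟨by rintro (a | a) h <;> simp_all⟩

@[simp] lemma cj_ll {V W : Type} (G : SimpleGraph V) (H : SimpleGraph W) (u v : V) :
    (cj G H).Adj (Sum.inl u) (Sum.inl v) ↔ G.Adj u v := Iff.rfl
@[simp] lemma cj_rr {V W : Type} (G : SimpleGraph V) (H : SimpleGraph W) (u v : W) :
    (cj G H).Adj (Sum.inr u) (Sum.inr v) ↔ H.Adj u v := Iff.rfl
@[simp] lemma cj_lr {V W : Type} (G : SimpleGraph V) (H : SimpleGraph W) (u : V) (v : W) :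
    (cj G H).Adj (Sum.inl u) (Sum.inr v) ↔ True := Iff.rfl
@[simp] lemma cj_rl {V W : Type} (G : SimpleGraph V) (H : SimpleGraph W) (u : V) (v : W) :
    (cj G H).Adj (Sum.inr v) (Sum.inl u) ↔ True := Iff.rfl

/-- In a graph without proper colouring with `q` colours a map without conflicts takes more than
`q` values. -/
lemma card_image_of_noCol {V : Type} [Fintype V] {G : SimpleGraph V} {q m : ℕ}
    (h : ∀ c : V → Fin q, ∃ u v, G.Adj u v ∧ c u = c v) (c : V → Fin m)
    (hc : ∀ u v, G.Adj u v → c u ≠ c v) : q < (Finset.univ.image c).card := by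
  classical
  by_contra hlt
  rw [not_lt] at hlt
  have e : Nonempty ((Finset.univ.image c : Finset (Fin m)) ↪ Fin q) := by
    rw [Function.Embedding.nonempty_iff_card_le, Fintype.card_coe, Fintype.card_fin]
    exact hlt
  obtain ⟨e⟩ := e
  obtain ⟨u, v, huv, he⟩ := h (fun v => e ⟨c v, Finset.mem_image_of_mem c (Finset.mem_univ v)⟩)
  have := e.injective he
  exact hc u v huv (congrArg Subtype.val this)

lemma Cr.col {q : ℕ} (hq : 1 ≤ q) {V : Type} {G : SimpleGraph V} (h : Cr q G) :
    ∃ c : V → Fin (q + 1), ∀ u v, G.Adj u v → c u ≠ c v := by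
  have h1 := critical_of_cr hq h
  have h2 : G.Colorable (q + 1) :=
    SimpleGraph.chromaticNumber_le_iff_colorable.1 (le_of_eq h1.1)
  obtain ⟨c⟩ := h2
  exact ⟨c, fun u v huv => c.valid huv⟩

/-- Deleting a vertex of a critical graph: a colouring with the extra colour `none` used only at
`v`. -/
lemma Cr.vert {q : ℕ} {V : Type} {G : SimpleGraph V} (h : Cr q G) (v : V) :
    ∃ c : V → Fin q, ∀ u w, u ≠ v → w ≠ v → G.Adj u w → c u ≠ c w := by
  obtain ⟨w, hw⟩ := h.2.2 v
  obtain ⟨c, hc⟩ := h.2.1 v w hw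
  refine ⟨c, fun a b ha hb hab => hc a b hab ?_⟩
  intro hs
  rw [Sym2.eq_iff] at hs
  rcases hs with ⟨h1, _⟩ | ⟨_, h1⟩
  · exact ha h1
  · exact hb h1

/-- the colours of the first part -/
def emb1 (q r : ℕ) (i : Fin q) : Fin (q + r) := Fin.castAdd r i
/-- the colours of the second part -/
def emb2 (q r : ℕ) (i : Fin r) : Fin (q + r) := Fin.natAdd q i

lemma emb_ne {q r : ℕ} (i : Fin q) (j : Fin r) : emb1 q r i ≠ emb2 q r j := by
  intro h
  have := congrArg Fin.val h
  simp [emb1, emb2] at this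
  omega

lemma emb1_inj {q r : ℕ} {i j : Fin q} (h : emb1 q r i = emb1 q r j) : i = j :=
  Fin.castAdd_injective q r h
lemma emb2_inj {q r : ℕ} {i j : Fin r} (h : emb2 q r i = emb2 q r j) : i = j :=
  (Fin.natAdd_injective r q) h

/-- The complete join of critical graphs is critical. -/
lemma cj_cr {q r : ℕ} (hq : 1 ≤ q) (hr : 1 ≤ r) {V W : Type} [Fintype V] [Fintype W]
    [Nonempty V] [Nonempty W] {G : SimpleGraph V} {H : SimpleGraph W} (hG : Cr q G) (hH : Cr r H) :
    Cr (q + r + 1) (cj G H) := by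
  classical
  refine ⟨?_, ?_, ?_⟩
  · intro c
    by_contra hcon
    push Not at hcon
    have h1 := card_image_of_noCol hG.1 (fun v => c (Sum.inl v))
      (fun u v huv => hcon _ _ (by simpa using huv))
    have h2 := card_image_of_noCol hH.1 (fun v => c (Sum.inr v))
      (fun u v huv => hcon _ _ (by simpa using huv))
    have hdis : Disjoint (Finset.univ.image (fun v => c (Sum.inl v)))
        (Finset.univ.image (fun v => c (Sum.inr v))) := by
      rw [Finset.disjoint_left]
      intro x hx hy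
      rw [Finset.mem_image] at hx hy
      obtain ⟨a, -, ha⟩ := hx
      obtain ⟨b, -, hb⟩ := hy
      exact hcon (Sum.inl a) (Sum.inr b) (by simp) (ha.trans hb.symm)
    have h3 := Finset.card_union_of_disjoint hdis
    have h4 := Finset.card_le_univ
      ((Finset.univ.image (fun v => c (Sum.inl v))) ∪ (Finset.univ.image (fun v => c (Sum.inr v))))
    rw [Fintype.card_fin] at h4
    omega
  · -- critical edges
    have left : ∀ a b, G.Adj a b → ∃ c : V ⊕ W → Fin (q + r + 1), ∀ u v, (cj G H).Adj u v →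
        s(u, v) ≠ s(Sum.inl a, Sum.inl b) → c u ≠ c v := by
      intro a b hab
      obtain ⟨c1, hc1⟩ := hG.2.1 a b hab
      obtain ⟨c2, hc2⟩ := Cr.col hr hH
      refine ⟨Sum.elim (fun v => emb1 q (r + 1) (c1 v)) (fun v => emb2 q (r + 1) (c2 v)), ?_⟩
      rintro (u | u) (v | v) huv hs
      · simp only [Sum.elim_inl]
        intro he
        refine hc1 u v huv ?_ (emb1_inj he)
        intro h
        apply hs
        have := congrArg (Sym2.map (Sum.inl : V → V ⊕ W)) h
        simpa using this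
      · exact emb_ne _ _
      · exact (emb_ne _ _).symm
      · simp only [Sum.elim_inr]
        intro he
        exact hc2 u v huv (emb2_inj he)
    have right : ∀ a b, H.Adj a b → ∃ c : V ⊕ W → Fin (q + r + 1), ∀ u v, (cj G H).Adj u v →
        s(u, v) ≠ s(Sum.inr a, Sum.inr b) → c u ≠ c v := by
      intro a b hab
      obtain ⟨c1, hc1⟩ := Cr.col hq hG
      obtain ⟨c2, hc2⟩ := hH.2.1 a b hab
      refine ⟨fun x => Fin.cast (by omega)
        (Sum.elim (fun v => emb1 (q + 1) r (c1 v)) (fun v => emb2 (q + 1) r (c2 v)) x), ?_⟩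
      rintro (u | u) (v | v) huv hs he
      all_goals
        have he' := Fin.cast_injective _ he
        simp only [Sum.elim_inl, Sum.elim_inr] at he'
      · exact hc1 u v huv (emb1_inj he')
      · exact emb_ne _ _ he'
      · exact emb_ne _ _ he'.symm
      · refine hc2 u v huv ?_ (emb2_inj he')
        intro h
        apply hs
        have := congrArg (Sym2.map (Sum.inr : W → V ⊕ W)) h
        simpa using this
    have cross : ∀ a b, ∃ c : V ⊕ W → Fin (q + r + 1), ∀ u v, (cj G H).Adj u v →
        s(u, v) ≠ s(Sum.inl a, Sum.inr b) → c u ≠ c v := by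
      intro a b
      obtain ⟨c1, hc1⟩ := Cr.vert hG a
      obtain ⟨c2, hc2⟩ := Cr.vert hH b
      let c : V ⊕ W → Fin (q + r + 1) := Sum.elim
        (fun v => if v = a then Fin.last (q + r) else (emb1 q r (c1 v)).castSucc)
        (fun v => if v = b then Fin.last (q + r) else (emb2 q r (c2 v)).castSucc)
      refine ⟨c, ?_⟩
      rintro (u | u) (v | v) huv hs he
      · simp only [c, Sum.elim_inl] at he
        by_cases hu : u = a
        · by_cases hv : v = a
          · exact (cj G H).ne_of_adj huv (by rw [hu, hv])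
          · rw [if_pos hu, if_neg hv] at he
            exact (Fin.castSucc_lt_last _).ne he.symm
        · by_cases hv : v = a
          · rw [if_neg hu, if_pos hv] at he
            exact (Fin.castSucc_lt_last _).ne he
          · rw [if_neg hu, if_neg hv] at he
            exact hc1 u v hu hv huv (emb1_inj (Fin.castSucc_injective _ he))
      · simp only [c, Sum.elim_inl, Sum.elim_inr] at he
        by_cases hu : u = a
        · by_cases hv : v = b
          · exact hs (by rw [hu, hv])
          · rw [if_pos hu, if_neg hv] at he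
            exact (Fin.castSucc_lt_last _).ne he.symm
        · by_cases hv : v = b
          · rw [if_neg hu, if_pos hv] at he
            exact (Fin.castSucc_lt_last _).ne he
          · rw [if_neg hu, if_neg hv] at he
            exact emb_ne _ _ (Fin.castSucc_injective _ he)
      · simp only [c, Sum.elim_inl, Sum.elim_inr] at he
        by_cases hu : u = b
        · by_cases hv : v = a
          · exact hs (by rw [hu, hv]; exact Sym2.eq_swap)
          · rw [if_pos hu, if_neg hv] at he
            exact (Fin.castSucc_lt_last _).ne he.symm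
        · by_cases hv : v = a
          · rw [if_neg hu, if_pos hv] at he
            exact (Fin.castSucc_lt_last _).ne he
          · rw [if_neg hu, if_neg hv] at he
            exact emb_ne _ _ (Fin.castSucc_injective _ he).symm
      · simp only [c, Sum.elim_inr] at he
        by_cases hu : u = b
        · by_cases hv : v = b
          · exact (cj G H).ne_of_adj huv (by rw [hu, hv])
          · rw [if_pos hu, if_neg hv] at he
            exact (Fin.castSucc_lt_last _).ne he.symm
        · by_cases hv : v = b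
          · rw [if_neg hu, if_pos hv] at he
            exact (Fin.castSucc_lt_last _).ne he
          · rw [if_neg hu, if_neg hv] at he
            exact hc2 u v hu hv huv (emb2_inj (Fin.castSucc_injective _ he))
    rintro (a | a) (b | b) hab
    · exact left a b hab
    · exact cross a b
    · obtain ⟨c, hc⟩ := cross b a
      exact ⟨c, fun u v huv hs => hc u v huv (by rwa [Sym2.eq_swap (a := Sum.inl b)])⟩
    · exact right a b hab
  · rintro (v | v)
    · obtain ⟨w⟩ := (inferInstance : Nonempty W)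
      exact ⟨Sum.inr w, by simp⟩
    · obtain ⟨w⟩ := (inferInstance : Nonempty V)
      exact ⟨Sum.inl w, by simp⟩

/-- `m` pairwise adjacent vertices -/
def HasK {V : Type} (m : ℕ) (G : SimpleGraph V) : Prop :=
  ∃ e : Fin m → V, ∀ i j, i ≠ j → G.Adj (e i) (e j)

lemma cliqueFree_iff_hasK {V : Type} {m : ℕ} {G : SimpleGraph V} : G.CliqueFree m ↔ ¬ HasK m G := by
  constructor
  · rintro h ⟨e, he⟩
    have hinj : Function.Injective e := by
      intro i j hij
      by_contra hne
      exact (he i j hne).ne hij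
    refine h (Finset.univ.map ⟨e, hinj⟩) ⟨?_, by simp⟩
    intro a ha b hb hab
    simp only [Finset.coe_map, Function.Embedding.coeFn_mk, Finset.coe_univ, Set.image_univ,
      Set.mem_range] at ha hb
    obtain ⟨i, rfl⟩ := ha
    obtain ⟨j, rfl⟩ := hb
    exact he i j (fun hij => hab (by rw [hij]))
  · intro h
    by_contra hc
    apply h
    have f := topEmbeddingOfNotCliqueFree hc
    exact ⟨f, fun i j hij => f.map_rel_iff.2 (by rwa [top_adj])⟩

/-- Cliques of a Hajos join, where moreover some edges `D` of the second graph are deleted. -/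
lemma joinG_cliqueFree {V1 V2 M : Type} {T1 : SimpleGraph V1} {T2 : SimpleGraph V2}
    {x1 y1 : V1} {x2 y2 : V2} {f1 : V1 → M} {f2 : V2 → M} (g : Glue x1 x2 f1 f2)
    (h1 : T1.Adj x1 y1) (h2 : T2.Adj x2 y2) {m : ℕ} (hm : 3 ≤ m) (D : Set (Sym2 V2))
    (hT1 : (T1.deleteEdges {s(x1, y1)}).CliqueFree m)
    (hT2 : (T2.deleteEdges ({s(x2, y2)} ∪ D)).CliqueFree m) :
    ((joinG T1 T2 x1 y1 x2 y2 f1 f2 g h1).deleteEdges (Sym2.map f2 '' D)).CliqueFree m := by
  classical
  rw [cliqueFree_iff_hasK] at *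
  rintro ⟨e, he⟩
  have hadj : ∀ i j, i ≠ j → JR T1 T2 x1 y1 x2 y2 f1 f2 (e i) (e j) := fun i j hij => (he i j hij).1
  have hnD : ∀ i j, i ≠ j → s(e i, e j) ∉ Sym2.map f2 '' D := by
    intro i j hij
    have := he i j hij
    rw [deleteEdges_adj] at this
    exact this.2
  have hxy1 := h1.ne
  have hxy2 := h2.ne
  -- pure vertices of both sides are not both present
  have key : ∀ i j, (¬ ∃ q, f2 q = e i) → (¬ ∃ p, f1 p = e j) → False := by
    intro i j hi hj
    have hij : i ≠ j := by
      rintro rfl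
      rcases g.cover (e i) with h | h
      · exact hj h
      · exact hi h
    have hcr : e i = f1 y1 ∧ e j = f2 y2 := by
      rcases hadj i j hij with ⟨p, q, -, -, hp, hq⟩ | ⟨p, q, -, -, hp, hq⟩ | h | h
      · exact (hj ⟨q, hq⟩).elim
      · exact (hi ⟨p, hp⟩).elim
      · exact h
      · exact (hi ⟨y2, h.1.symm⟩).elim
    obtain ⟨l, hli, hlj⟩ : ∃ l : Fin m, l ≠ i ∧ l ≠ j := by
      by_contra hcon
      push Not at hcon
      have : (Finset.univ : Finset (Fin m)) ⊆ {i, j} := by
        intro l _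
        rw [Finset.mem_insert, Finset.mem_singleton]
        by_cases h : l = i
        · exact Or.inl h
        · exact Or.inr (hcon l h)
      have h3 := Finset.card_le_card this
      have h4 : ({i, j} : Finset (Fin m)).card ≤ 2 := Finset.card_le_two
      rw [Finset.card_univ, Fintype.card_fin] at h3
      omega
    -- the third vertex
    have a1 := hadj l i hli
    have a2 := hadj l j hlj
    rw [hcr.1] at a1
    rw [hcr.2] at a2
    have hlne1 : e l ≠ f1 y1 := fun h => (he l i hli).ne (h.trans hcr.1.symm)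
    have hlne2 : e l ≠ f2 y2 := fun h => (he l j hlj).ne (h.trans hcr.2.symm)
    have b1 : ∃ p, f1 p = e l ∧ T1.Adj p y1 ∧ p ≠ x1 := by
      rcases a1 with ⟨p, q, hpq, hs, hp, hq⟩ | ⟨p, q, hpq, hs, hp, hq⟩ | ⟨h, _⟩ | ⟨h, _⟩
      · have : q = y1 := g.inj1 hq
        subst this
        refine ⟨p, hp, hpq, ?_⟩
        rintro rfl
        exact hs rfl
      · have := (g.sep _ _ hq.symm).1
        exact absurd this.symm hxy1
      · exact absurd h hlne1
      · exact absurd h hlne2
    have b2 : ∃ p, f2 p = e l := by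
      rcases a2 with ⟨p, q, hpq, hs, hp, hq⟩ | ⟨p, q, hpq, hs, hp, hq⟩ | ⟨h, _⟩ | ⟨h, _⟩
      · have := (g.sep _ _ hq).2
        exact absurd this.symm hxy2
      · exact ⟨p, hp⟩
      · exact absurd h hlne1
      · exact absurd h hlne2
    obtain ⟨p, hp, -, hpx⟩ := b1
    obtain ⟨q, hq⟩ := b2
    exact hpx (g.sep p q (hp.trans hq.symm)).1
  by_cases hall : ∀ i, ∃ p, f1 p = e i
  · -- all vertices on the first side
    choose p hp using hall
    refine hT1 ⟨p, fun i j hij => ?_⟩
    rw [deleteEdges_adj]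
    rcases hadj i j hij with ⟨a, b, hab, hs, ha, hb⟩ | ⟨a, b, hab, hs, ha, hb⟩ | ⟨ha, hb⟩ | ⟨ha, hb⟩
    · have e1 : a = p i := g.inj1 (ha.trans (hp i).symm)
      have e2 : b = p j := g.inj1 (hb.trans (hp j).symm)
      subst e1 e2
      exact ⟨hab, hs⟩
    · have e1 := (g.sep (p i) a ((hp i).trans ha.symm)).2
      have e2 := (g.sep (p j) b ((hp j).trans hb.symm)).2
      exact absurd (e1.trans e2.symm) hab.ne
    · have := (g.sep (p j) y2 ((hp j).trans hb)).2
      exact absurd this.symm hxy2
    · have := (g.sep (p i) y2 ((hp i).trans ha)).2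
      exact absurd this.symm hxy2
  · push Not at hall
    obtain ⟨j, hj⟩ := hall
    have hall2 : ∀ i, ∃ q, f2 q = e i := by
      intro i
      by_contra hi
      exact key i j hi (by rintro ⟨p, hp⟩; exact hj p hp)
    choose q hq using hall2
    refine hT2 ⟨q, fun i j hij => ?_⟩
    rw [deleteEdges_adj]
    rcases hadj i j hij with ⟨a, b, hab, hs, ha, hb⟩ | ⟨a, b, hab, hs, ha, hb⟩ | ⟨ha, hb⟩ | ⟨ha, hb⟩
    · have e1 := (g.sep a (q i) (ha.trans (hq i).symm)).1
      have e2 := (g.sep b (q j) (hb.trans (hq j).symm)).1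
      exact absurd (e1.trans e2.symm) hab.ne
    · have e1 : a = q i := g.inj2 (ha.trans (hq i).symm)
      have e2 : b = q j := g.inj2 (hb.trans (hq j).symm)
      subst e1 e2
      refine ⟨hab, ?_⟩
      rintro (h | h)
      · exact hs h
      · exact hnD i j hij ⟨_, h, by rw [Sym2.map_mk, ha, hb]⟩
    · have := (g.sep y1 (q i) (ha.symm.trans (hq i).symm)).1
      exact absurd this.symm hxy1
    · have := (g.sep y1 (q j) (hb.symm.trans (hq j).symm)).1
      exact absurd this.symm hxy1

/-- The number of edges of a Hajos join. -/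
lemma joinG_edges {V1 V2 M : Type} [Finite V1] [Finite V2] {T1 : SimpleGraph V1}
    {T2 : SimpleGraph V2}
    {x1 y1 : V1} {x2 y2 : V2} {f1 : V1 → M} {f2 : V2 → M} (g : Glue x1 x2 f1 f2)
    (h1 : T1.Adj x1 y1) (h2 : T2.Adj x2 y2) {a b : ℕ} (ha : T1.edgeSet.ncard ≤ a)
    (hb : T2.edgeSet.ncard ≤ b) :
    (joinG T1 T2 x1 y1 x2 y2 f1 f2 g h1).edgeSet.ncard ≤ a + b - 1 := by
  classical
  have hsub : (joinG T1 T2 x1 y1 x2 y2 f1 f2 g h1).edgeSet ⊆
      (Sym2.map f1 '' (T1.edgeSet \ {s(x1, y1)}) ∪ Sym2.map f2 '' (T2.edgeSet \ {s(x2, y2)})) ∪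
        {s(f1 y1, f2 y2)} := by
    intro z hz
    induction z using Sym2.ind with
    | _ u v =>
      rw [mem_edgeSet] at hz
      rcases hz with ⟨p, q, hpq, hs, rfl, rfl⟩ | ⟨p, q, hpq, hs, rfl, rfl⟩ | ⟨rfl, rfl⟩ | ⟨rfl, rfl⟩
      · exact Or.inl (Or.inl ⟨s(p, q), ⟨hpq, hs⟩, rfl⟩)
      · exact Or.inl (Or.inr ⟨s(p, q), ⟨hpq, hs⟩, rfl⟩)
      · exact Or.inr rfl
      · exact Or.inr (by rw [Set.mem_singleton_iff]; exact Sym2.eq_swap)
  have hfin : ((Sym2.map f1 '' (T1.edgeSet \ {s(x1, y1)}) ∪
      Sym2.map f2 '' (T2.edgeSet \ {s(x2, y2)})) ∪ {s(f1 y1, f2 y2)}).Finite := by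
    refine Set.Finite.union (Set.Finite.union ?_ ?_) (Set.finite_singleton _) <;>
    exact Set.Finite.image _ (Set.toFinite _)
  have k1 := Set.ncard_le_ncard hsub hfin
  have k2 := Set.ncard_union_le (Sym2.map f1 '' (T1.edgeSet \ {s(x1, y1)}) ∪
      Sym2.map f2 '' (T2.edgeSet \ {s(x2, y2)})) {s(f1 y1, f2 y2)}
  have k3 := Set.ncard_union_le (Sym2.map f1 '' (T1.edgeSet \ {s(x1, y1)}))
      (Sym2.map f2 '' (T2.edgeSet \ {s(x2, y2)}))
  have k4 := Set.ncard_image_le (f := Sym2.map f1) (Set.toFinite (T1.edgeSet \ {s(x1, y1)}))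
  have k5 := Set.ncard_image_le (f := Sym2.map f2) (Set.toFinite (T2.edgeSet \ {s(x2, y2)}))
  have k6 := Set.ncard_sdiff_singleton_of_mem (s := T1.edgeSet) (a := s(x1, y1)) h1
  have k7 := Set.ncard_sdiff_singleton_of_mem (s := T2.edgeSet) (a := s(x2, y2)) h2
  have k8 : 0 < T1.edgeSet.ncard := (Set.ncard_pos (Set.toFinite _)).2 ⟨s(x1, y1), h1⟩
  have k9 : 0 < T2.edgeSet.ncard := (Set.ncard_pos (Set.toFinite _)).2 ⟨s(x2, y2), h2⟩
  rw [Set.ncard_singleton] at k2
  omega

/-- The vertex set of the Hajos join. -/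
lemma exists_glue' {V1 V2 : Type} [Fintype V1] [Fintype V2] (x1 : V1) (x2 : V2) :
    ∃ (M : Type) (_ : Fintype M) (f1 : V1 → M) (f2 : V2 → M), Glue x1 x2 f1 f2 ∧
      Fintype.card M + 1 = Fintype.card V1 + Fintype.card V2 := by
  classical
  refine ⟨V1 ⊕ {v : V2 // v ≠ x2}, inferInstance, Sum.inl,
    fun v => if h : v = x2 then Sum.inl x1 else Sum.inr ⟨v, h⟩, ⟨?_, ?_, ?_, ?_, ?_⟩, ?_⟩
  · exact Sum.inl_injective
  · intro u v h
    simp only at h
    split_ifs at h with h1 h2 h2
    · rw [h1, h2]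
    · have := Sum.inr_injective h
      exact congrArg Subtype.val this
  · simp
  · intro p v h
    split_ifs at h with h1
    · exact ⟨Sum.inl_injective h, h1⟩
  · intro y
    rcases y with p | ⟨v, hv⟩
    · exact Or.inl ⟨p, rfl⟩
    · refine Or.inr ⟨v, ?_⟩
      simp [hv]
  · have h := Fintype.card_subtype_compl (fun v : V2 => v = x2)
    rw [Fintype.card_subtype_eq] at h
    have hpos : 0 < Fintype.card V2 := Fintype.card_pos_iff.2 ⟨x2⟩
    rw [Fintype.card_sum]
    have h' : Fintype.card {v : V2 // v ≠ x2} = Fintype.card V2 - 1 := h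
    rw [h']
    omega

/-- Transport along an equivalence. -/
lemma cr_comap {q : ℕ} {V W : Type} {G : SimpleGraph V} (h : Cr q G) (e : W ≃ V) :
    Cr q (G.comap e) := by
  refine ⟨?_, ?_, ?_⟩
  · intro c
    obtain ⟨u, v, huv, he⟩ := h.1 (fun x => c (e.symm x))
    exact ⟨e.symm u, e.symm v, by simpa using huv, he⟩
  · intro a b hab
    obtain ⟨c, hc⟩ := h.2.1 (e a) (e b) hab
    refine ⟨fun x => c (e x), fun u v huv hs => hc _ _ huv ?_⟩
    intro hh
    apply hs
    have := congrArg (Sym2.map e.symm) hh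
    simpa using this
  · intro v
    obtain ⟨u, hu⟩ := h.2.2 (e v)
    exact ⟨e.symm u, by simpa using hu⟩

lemma cliqueFree_comap {m : ℕ} {V W : Type} {G : SimpleGraph V} (h : G.CliqueFree m) (e : W ≃ V) :
    (G.comap e).CliqueFree m := by
  rw [cliqueFree_iff_hasK] at *
  rintro ⟨f, hf⟩
  exact h ⟨fun i => e (f i), fun i j hij => hf i j hij⟩

lemma edges_comap {V W : Type} {G : SimpleGraph V} [Finite V] (e : W ≃ V) :
    (G.comap e).edgeSet.ncard ≤ G.edgeSet.ncard := by
  have hsub : (G.comap e).edgeSet ⊆ Sym2.map e.symm '' G.edgeSet := by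
    intro z hz
    induction z using Sym2.ind with
    | _ u v =>
      exact ⟨s(e u, e v), hz, by simp⟩
  exact (Set.ncard_le_ncard hsub (Set.Finite.image _ (Set.toFinite _))).trans
    (Set.ncard_image_le (Set.toFinite _))

end Pool.Agent.R55.HJ
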