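import Pool.Agent.Results.MP_fbe9f6_co.BipartiteRelated

/-!
# Two connected graphs that are 2-chromatically related but not 3-chromatically related

`Paw` is the triangle with a pendant edge. `Big N n` is a connected graph, split into two sides,
each side being the disjoint union of the shift graph on `N` points and a clique on `n` vertices.
-/

set_option autoImplicit false

namespace Pool.Agent.R55.PawGraph

open Pool.Agent.Results.MP_fbe9f6_co.BipartiteRelated

/-- The paw: the triangle `0,1,2` with a pendant vertex `3` attached to `0`. -/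
def Paw : SimpleGraph (Fin 4) where
  Adj a b := a ≠ b ∧ (a = 0 ∨ b = 0 ∨ (a ≠ 3 ∧ b ≠ 3))
  symm := ⟨by
    intro a b h
    exact ⟨h.1.symm, by tauto⟩⟩
  loopless := ⟨fun a h => h.1 rfl⟩

instance : DecidableRel Paw.Adj := fun a b => by
  unfold Paw
  infer_instance

/-- Increasing pairs of elements of `Fin N`. -/
abbrev Pairs (N : ℕ) : Type := {p : Fin N × Fin N // p.1 < p.2}

/-- Adjacency inside one side: shift graph on pairs, complete graph on `Fin n`, no edges between
them. -/
def inAdj {N n : ℕ} : Pairs N ⊕ Fin n → Pairs N ⊕ Fin n → Prop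
  | Sum.inl p, Sum.inl q => p.1.2 = q.1.1 ∨ q.1.2 = p.1.1
  | Sum.inr i, Sum.inr j => i ≠ j
  | _, _ => False

/-- Adjacency between the two sides: a perfect matching between the two cliques, all other pairs
are adjacent. -/
def crossAdj {N n : ℕ} : Pairs N ⊕ Fin n → Pairs N ⊕ Fin n → Prop
  | Sum.inr i, Sum.inr j => i = j
  | _, _ => True

theorem inAdj_symm {N n : ℕ} (x y : Pairs N ⊕ Fin n) (h : inAdj x y) : inAdj y x := by
  rcases x with p | i <;> rcases y with q | j
  · exact Or.symm h
  · exact h
  · exact h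
  · exact Ne.symm h

theorem inAdj_irrefl {N n : ℕ} (x : Pairs N ⊕ Fin n) : ¬ inAdj x x := by
  rcases x with p | i
  · intro h
    rcases h with h | h
    · exact (ne_of_lt p.2) h.symm
    · exact (ne_of_lt p.2) h.symm
  · intro h
    exact h rfl

theorem crossAdj_symm {N n : ℕ} (x y : Pairs N ⊕ Fin n) (h : crossAdj x y) : crossAdj y x := by
  rcases x with p | i <;> rcases y with q | j
  · exact h
  · exact h
  · exact h
  · exact Eq.symm h

/-- The big graph. -/
def Big (N n : ℕ) : SimpleGraph ((Pairs N ⊕ Fin n) × Bool) where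
  Adj u v := (u.2 = v.2 ∧ inAdj u.1 v.1) ∨ (u.2 ≠ v.2 ∧ crossAdj u.1 v.1)
  symm := ⟨by
    intro u v h
    rcases h with h | h
    · exact Or.inl ⟨h.1.symm, inAdj_symm _ _ h.2⟩
    · exact Or.inr ⟨h.1.symm, crossAdj_symm _ _ h.2⟩⟩
  loopless := ⟨by
    intro u h
    rcases h with h | h
    · exact inAdj_irrefl _ h.2
    · exact h.1 rfl⟩

theorem big_same {N n : ℕ} {x y : Pairs N ⊕ Fin n} {b : Bool} :
    (Big N n).Adj (x, b) (y, b) ↔ inAdj x y := by
  constructor
  · intro h
    rcases h with h | h
    · exact h.2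
    · exact (h.1 rfl).elim
  · intro h
    exact Or.inl ⟨rfl, h⟩

theorem big_diff {N n : ℕ} {x y : Pairs N ⊕ Fin n} {b b' : Bool} (hb : b ≠ b') :
    (Big N n).Adj (x, b) (y, b') ↔ crossAdj x y := by
  constructor
  · intro h
    rcases h with h | h
    · exact (hb h.1).elim
    · exact h.2
  · intro h
    exact Or.inr ⟨hb, h⟩

/-! ### Paws -/

/-- Four vertices spanning a paw give an embedding. -/
theorem paw_emb {W : Type*} {X : SimpleGraph W} {a b c d : W} (hab : X.Adj a b) (hac : X.Adj a c)
    (hbc : X.Adj b c) (had : X.Adj a d) (hbd : ¬ X.Adj b d) (hcd : ¬ X.Adj c d) (hdb : d ≠ b)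
    (hdc : d ≠ c) : Nonempty (Paw ↪g X) := by
  refine ⟨⟨⟨![a, b, c, d], ?_⟩, ?_⟩⟩
  · intro i j hij
    have h1 := hab.ne
    have h2 := hac.ne
    have h3 := hbc.ne
    have h4 := had.ne
    fin_cases i <;> fin_cases j <;> simp_all
  · intro i j
    have e1 := hab.symm
    have e2 := hac.symm
    have e3 := hbc.symm
    have e4 := had.symm
    have e5 : ¬ X.Adj d b := fun h => hbd h.symm
    have e6 : ¬ X.Adj d c := fun h => hcd h.symm
    change X.Adj (![a, b, c, d] i) (![a, b, c, d] j) ↔ Paw.Adj i j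
    fin_cases i <;> fin_cases j <;> simp_all [Paw]

/-- In a paw-free graph, a neighbour of a vertex of a triangle is adjacent to another vertex of the
triangle or lies in it. -/
theorem paw_free {W : Type*} {X : SimpleGraph W} (hX : IsEmpty (Paw ↪g X)) {a b c d : W}
    (hab : X.Adj a b) (hac : X.Adj a c) (hbc : X.Adj b c) (had : X.Adj a d) :
    d = b ∨ d = c ∨ X.Adj b d ∨ X.Adj c d := by
  by_contra h
  push Not at h
  obtain ⟨f⟩ := paw_emb hab hac hbc had h.2.2.1 h.2.2.2 h.1 h.2.1
  exact hX.false f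

/-- In a paw-free graph there is no induced path `a b c d` whose vertex `b` lies in a triangle. -/
theorem no_path {W : Type*} {X : SimpleGraph W} (hX : IsEmpty (Paw ↪g X)) {a b c d : W}
    (hab : X.Adj a b) (hbc : X.Adj b c) (hcd : X.Adj c d) (hac : ¬ X.Adj a c)
    (had : ¬ X.Adj a d) (hbd : ¬ X.Adj b d) (hb : ∃ x y, X.Adj b x ∧ X.Adj b y ∧ X.Adj x y) :
    False := by
  obtain ⟨x, y, hbx, hby, hxy⟩ := hb
  -- the edge `b c` lies in a triangle
  obtain ⟨e, hbe, hce⟩ : ∃ e, X.Adj b e ∧ X.Adj c e := by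
    rcases paw_free hX hbx hby hxy hbc with h | h | h | h
    · exact ⟨y, hby, h ▸ hxy⟩
    · exact ⟨x, hbx, h ▸ hxy.symm⟩
    · exact ⟨x, hbx, h.symm⟩
    · exact ⟨y, hby, h.symm⟩
  -- `a` is adjacent to `e`
  have hae : X.Adj a e := by
    rcases paw_free hX hbc hbe hce hab.symm with h | h | h | h
    · subst h
      exact (had hcd).elim
    · subst h
      exact (hac hce.symm).elim
    · exact (hac h.symm).elim
    · exact h.symm
  -- `d` is adjacent to `e`
  have hde : X.Adj d e := by
    rcases paw_free hX hbc.symm hce hbe hcd with h | h | h | h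
    · subst h
      exact (had hab).elim
    · subst h
      exact (hbd hbe).elim
    · exact (hbd h).elim
    · exact h.symm
  -- the triangle `e a b` and `d`
  rcases paw_free hX hae.symm hbe.symm hab hde.symm with h | h | h | h
  · subst h
    exact hac hcd.symm
  · subst h
    exact had hab
  · exact had h
  · exact hbd h

/-! ### The shift graph -/

/-- A set `D` of pairs without increasing path of four edges, a second such set, and a set without
increasing path of two edges cannot cover all pairs from more than `32` points. -/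
theorem shift_cover {M : ℕ} (hM : 32 < M) (P : Fin 3 → Fin M → Fin M → Prop)
    (hcov : ∀ i j, i < j → P 0 i j ∨ P 1 i j ∨ P 2 i j)
    (h0 : ∀ a b c d e, a < b → b < c → c < d → d < e → P 0 a b → P 0 b c → P 0 c d → P 0 d e →
      False)
    (h1 : ∀ a b c d e, a < b → b < c → c < d → d < e → P 1 a b → P 1 b c → P 1 c d → P 1 d e →
      False)
    (h2 : ∀ a b c, a < b → b < c → P 2 a b → P 2 b c → False) : False := by
  classical
  -- the length of the longest increasing path of kind `t` ending at `j`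
  let L : Fin 3 → Fin M → Fin 4 := fun t j =>
    if ∃ a b c, a < b ∧ b < c ∧ c < j ∧ P t a b ∧ P t b c ∧ P t c j then 3
    else if ∃ b c, b < c ∧ c < j ∧ P t b c ∧ P t c j then 2
    else if ∃ c, c < j ∧ P t c j then 1
    else 0
  have key : ∀ t, (∀ a b c d e, a < b → b < c → c < d → d < e → P t a b → P t b c → P t c d →
      P t d e → False) → ∀ i j, i < j → P t i j → L t i < L t j := by
    intro t ht i j hij hp
    by_cases c3 : ∃ a b c, a < b ∧ b < c ∧ c < i ∧ P t a b ∧ P t b c ∧ P t c i
    · obtain ⟨a, b, c, q1, q2, q3, q4, q5, q6⟩ := c3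
      exact (ht a b c i j q1 q2 q3 hij q4 q5 q6 hp).elim
    · by_cases c2 : ∃ b c, b < c ∧ c < i ∧ P t b c ∧ P t c i
      · obtain ⟨b, c, q1, q2, q3, q4⟩ := c2
        have e1 : L t j = 3 := if_pos ⟨b, c, i, q1, q2, hij, q3, q4, hp⟩
        have e2 : L t i ≤ 2 := by
          simp only [L, if_neg c3]
          split_ifs <;> decide
        rw [e1]
        exact lt_of_le_of_lt e2 (by decide)
      · by_cases c1 : ∃ c, c < i ∧ P t c i
        · obtain ⟨c, q1, q2⟩ := c1
          have e2 : L t i ≤ 1 := by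
            simp only [L, if_neg c3, if_neg c2]
            split_ifs <;> decide
          have e1 : 2 ≤ L t j := by
            simp only [L]
            split_ifs with g1 g2 g3
            · decide
            · decide
            · exact (g2 ⟨c, i, q1, hij, q2, hp⟩).elim
            · exact (g2 ⟨c, i, q1, hij, q2, hp⟩).elim
          exact lt_of_le_of_lt e2 (lt_of_lt_of_le (by decide) e1)
        · have e2 : L t i = 0 := by
            simp only [L, if_neg c3, if_neg c2, if_neg c1]
          have e1 : 1 ≤ L t j := by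
            simp only [L]
            split_ifs with g1 g2 g3
            · decide
            · decide
            · decide
            · exact (g3 ⟨i, hij, hp⟩).elim
          rw [e2]
          exact lt_of_lt_of_le (by decide) e1
  let S : Fin M → Fin 4 × Fin 4 × Bool := fun j => (L 0 j, L 1 j, decide (∃ c, c < j ∧ P 2 c j))
  have hlt : ∀ i j, i < j → S i ≠ S j := by
    intro i j hij he
    have e0 : L 0 i = L 0 j := (Prod.mk.inj he).1
    have e1 : L 1 i = L 1 j := (Prod.mk.inj (Prod.mk.inj he).2).1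
    have e2 : decide (∃ c, c < i ∧ P 2 c i) = decide (∃ c, c < j ∧ P 2 c j) :=
      (Prod.mk.inj (Prod.mk.inj he).2).2
    rcases hcov i j hij with h | h | h
    · exact absurd (key 0 h0 i j hij h) (by rw [e0]; exact lt_irrefl _)
    · exact absurd (key 1 h1 i j hij h) (by rw [e1]; exact lt_irrefl _)
    · have h3 : ∃ c, c < i ∧ P 2 c i := by
        rw [decide_eq_decide] at e2
        exact e2.2 ⟨i, hij, h⟩
      obtain ⟨c, q1, q2⟩ := h3
      exact h2 c i j q1 hij q2 h
  have hinj : Function.Injective S := by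
    intro i j he
    rcases lt_trichotomy i j with h | h | h
    · exact (hlt i j h he).elim
    · exact h
    · exact (hlt j i h he.symm).elim
  have hc := Fintype.card_le_of_injective S hinj
  simp at hc
  omega

/-! ### The big graph has no bad partitions -/

/-- The vertices satisfying `Q` span no triangle of `X`. -/
def TF {W : Type*} (X : SimpleGraph W) (Q : W → Prop) : Prop :=
  ∀ a b c, Q a → Q b → Q c → X.Adj a b → X.Adj b c → X.Adj a c → False

/-- The vertices satisfying `Q` span no induced path on four vertices of `X`. -/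
def PF {W : Type*} (X : SimpleGraph W) (Q : W → Prop) : Prop :=
  ∀ a b c d, Q a → Q b → Q c → Q d → X.Adj a b → X.Adj b c → X.Adj c d → ¬ X.Adj a c →
    ¬ X.Adj a d → ¬ X.Adj b d → False

/-- No partition of the big graph into two triangle-free sets and a set without induced path on
four vertices. -/
theorem no_part_one {M : ℕ} (p : (Pairs M ⊕ Fin 11) × Bool → Fin 3)
    (h0 : TF (Big M 11) (fun v => p v = 0)) (h1 : TF (Big M 11) (fun v => p v = 1))
    (h2 : PF (Big M 11) (fun v => p v = 2)) : False := by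
  classical
  let S : Bool → Fin 3 → Finset (Fin 11) := fun b t =>
    Finset.univ.filter (fun i => p (Sum.inr i, b) = t)
  have hS : ∀ b t, TF (Big M 11) (fun v => p v = t) → (S b t).card ≤ 2 := by
    intro b t ht
    by_contra hlt
    push Not at hlt
    obtain ⟨x, hx, y, hy, z, hz, hxy, hxz, hyz⟩ := Finset.two_lt_card.1 hlt
    rw [Finset.mem_filter] at hx hy hz
    exact ht (Sum.inr x, b) (Sum.inr y, b) (Sum.inr z, b) hx.2 hy.2 hz.2 (big_same.2 hxy)
      (big_same.2 hyz) (big_same.2 hxz)
  let T : Finset (Fin 11) := Finset.univ.filter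
    (fun i => p (Sum.inr i, false) = 2 ∧ p (Sum.inr i, true) = 2)
  have hcov : (Finset.univ : Finset (Fin 11)) ⊆
      T ∪ (S false 0 ∪ (S false 1 ∪ (S true 0 ∪ S true 1))) := by
    intro i _
    have hf : p (Sum.inr i, false) = 0 ∨ p (Sum.inr i, false) = 1 ∨ p (Sum.inr i, false) = 2 := by
      generalize p (Sum.inr i, false) = q
      revert q
      decide
    have ht : p (Sum.inr i, true) = 0 ∨ p (Sum.inr i, true) = 1 ∨ p (Sum.inr i, true) = 2 := by
      generalize p (Sum.inr i, true) = q
      revert q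
      decide
    simp only [T, S, Finset.mem_union, Finset.mem_filter, Finset.mem_univ, true_and]
    tauto
  have hcard := Finset.card_le_card hcov
  rw [Finset.card_univ, Fintype.card_fin] at hcard
  have e1 := Finset.card_union_le T (S false 0 ∪ (S false 1 ∪ (S true 0 ∪ S true 1)))
  have e2 := Finset.card_union_le (S false 0) (S false 1 ∪ (S true 0 ∪ S true 1))
  have e3 := Finset.card_union_le (S false 1) (S true 0 ∪ S true 1)
  have e4 := Finset.card_union_le (S true 0) (S true 1)
  have f1 := hS false 0 h0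
  have f2 := hS false 1 h1
  have f3 := hS true 0 h0
  have f4 := hS true 1 h1
  have hT : 2 < T.card := by omega
  obtain ⟨i, hi, j, hj, k, hk, hij, hik, hjk⟩ := Finset.two_lt_card.1 hT
  simp only [T, Finset.mem_filter, Finset.mem_univ, true_and] at hi hj hk
  have hft : false ≠ true := by decide
  exact h2 (Sum.inr i, false) (Sum.inr j, false) (Sum.inr j, true) (Sum.inr k, true) hi.1 hj.1
    hj.2 hk.2 (big_same.2 hij) ((big_diff hft).2 rfl) (big_same.2 hjk)
    (fun h => hij ((big_diff hft).1 h)) (fun h => hik ((big_diff hft).1 h))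
    (fun h => hjk ((big_diff hft).1 h))

/-- No partition of the big graph into two sets without induced path on four vertices and a
triangle-free set. -/
theorem no_part_two {M n : ℕ} (hM : 32 < M) (p : (Pairs M ⊕ Fin n) × Bool → Fin 3)
    (h0 : PF (Big M n) (fun v => p v = 0)) (h1 : PF (Big M n) (fun v => p v = 1))
    (h2 : TF (Big M n) (fun v => p v = 2)) : False := by
  classical
  -- on one of the sides the third class is independent in the shift graph
  obtain ⟨b, hb⟩ : ∃ b : Bool, ∀ s t : Pairs M, p (Sum.inl s, b) = 2 → p (Sum.inl t, b) = 2 →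
      ¬ (inAdj (Sum.inl s : Pairs M ⊕ Fin n) (Sum.inl t)) := by
    by_contra hcon
    push Not at hcon
    obtain ⟨s, t, hs, ht, hst⟩ := hcon false
    obtain ⟨s', t', hs', ht', hst'⟩ := hcon true
    have hft : false ≠ true := by decide
    exact h2 (Sum.inl s, false) (Sum.inl t, false) (Sum.inl s', true) hs ht hs'
      (big_same.2 hst) ((big_diff hft).2 trivial) ((big_diff hft).2 trivial)
  have hpath : ∀ q : Fin 3, PF (Big M n) (fun v => p v = q) → ∀ x y z u w : Fin M,
      x < y → y < z → z < u → u < w →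
      (∃ h : x < y, p (Sum.inl ⟨(x, y), h⟩, b) = q) →
      (∃ h : y < z, p (Sum.inl ⟨(y, z), h⟩, b) = q) →
      (∃ h : z < u, p (Sum.inl ⟨(z, u), h⟩, b) = q) →
      (∃ h : u < w, p (Sum.inl ⟨(u, w), h⟩, b) = q) → False := by
    rintro q hq x y z u w hxy hyz hzu huw ⟨_, g1⟩ ⟨_, g2⟩ ⟨_, g3⟩ ⟨_, g4⟩
    refine hq _ _ _ _ g1 g2 g3 g4 (big_same.2 (Or.inl rfl)) (big_same.2 (Or.inl rfl))
      (big_same.2 (Or.inl rfl)) ?_ ?_ ?_
    · intro h
      rcases big_same.1 h with h' | h'
      · exact absurd h' (ne_of_lt hyz)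
      · exact absurd h' (ne_of_gt (hxy.trans (hyz.trans hzu)))
    · intro h
      rcases big_same.1 h with h' | h'
      · exact absurd h' (ne_of_lt (hyz.trans hzu))
      · exact absurd h' (ne_of_gt (hxy.trans (hyz.trans (hzu.trans huw))))
    · intro h
      rcases big_same.1 h with h' | h'
      · exact absurd h' (ne_of_lt hzu)
      · exact absurd h' (ne_of_gt (hyz.trans (hzu.trans huw)))
  refine shift_cover hM (fun q x y => ∃ h : x < y, p (Sum.inl ⟨(x, y), h⟩, b) = q) ?_
    (hpath 0 h0) (hpath 1 h1) ?_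
  · intro i j hij
    have : ∀ q : Fin 3, q = 0 ∨ q = 1 ∨ q = 2 := by decide
    rcases this (p (Sum.inl ⟨(i, j), hij⟩, b)) with h | h | h
    · exact Or.inl ⟨hij, h⟩
    · exact Or.inr (Or.inl ⟨hij, h⟩)
    · exact Or.inr (Or.inr ⟨hij, h⟩)
  · rintro x y z hxy hyz ⟨_, g1⟩ ⟨_, g2⟩
    exact hb _ _ g1 g2 (Or.inl rfl)

/-! ### Properties of the big graph -/

theorem shift_tf {N n : ℕ} (s t u : Pairs N) (h1 : inAdj (Sum.inl s : Pairs N ⊕ Fin n) (Sum.inl t))
    (h2 : inAdj (Sum.inl t : Pairs N ⊕ Fin n) (Sum.inl u))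
    (h3 : inAdj (Sum.inl s : Pairs N ⊕ Fin n) (Sum.inl u)) : False := by
  have a1 := s.2
  have a2 := t.2
  have a3 := u.2
  change s.1.2 = t.1.1 ∨ t.1.2 = s.1.1 at h1
  change t.1.2 = u.1.1 ∨ u.1.2 = t.1.1 at h2
  change s.1.2 = u.1.1 ∨ u.1.2 = s.1.1 at h3
  omega

/-- Both sides of the big graph are paw-free. -/
theorem big_paw_free (N n : ℕ) :
    IsFreeColoring (Big N n) Paw (fun v => if v.2 then (1 : Fin 2) else 0) := by
  intro i
  refine ⟨fun f => ?_⟩
  obtain ⟨b, hb⟩ : ∃ b : Bool, ∀ a : Fin 4, (f a).1.2 = b := by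
    refine ⟨(f 0).1.2, fun a => ?_⟩
    have h1 : (if (f a).1.2 then (1 : Fin 2) else 0) = i := (f a).2
    have h2 : (if (f 0).1.2 then (1 : Fin 2) else 0) = i := (f 0).2
    have h3 := h1.trans h2.symm
    revert h3
    cases (f a).1.2 <;> cases (f 0).1.2 <;> simp
  have hadj : ∀ a c : Fin 4, Paw.Adj a c ↔ inAdj (f a).1.1 (f c).1.1 := by
    intro a c
    rw [← f.map_adj_iff]
    change (Big N n).Adj (f a).1 (f c).1 ↔ _
    have ea : (f a).1 = ((f a).1.1, b) := Prod.ext rfl (hb a)
    have ec : (f c).1 = ((f c).1.1, b) := Prod.ext rfl (hb c)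
    rw [ea, ec]
    exact big_same
  have h01 := (hadj 0 1).1 (by decide)
  have h02 := (hadj 0 2).1 (by decide)
  have h12 := (hadj 1 2).1 (by decide)
  have h03 := (hadj 0 3).1 (by decide)
  have h13 : ¬ inAdj (f 1).1.1 (f 3).1.1 := fun h => absurd ((hadj 1 3).2 h) (by decide)
  have hne : (f 1).1.1 ≠ (f 3).1.1 := by
    intro h
    have : f 1 = f 3 := Subtype.ext (Prod.ext h (by rw [hb, hb]))
    exact absurd (f.injective this) (by decide)
  generalize (f 0).1.1 = x0 at *
  generalize (f 1).1.1 = x1 at *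
  generalize (f 2).1.1 = x2 at *
  generalize (f 3).1.1 = x3 at *
  rcases x0 with s0 | i0
  · rcases x1 with s1 | i1
    · rcases x2 with s2 | i2
      · exact shift_tf s0 s1 s2 h01 h12 h02
      · exact h02
    · exact h01
  · rcases x1 with s1 | i1
    · exact h01
    · rcases x3 with s3 | i3
      · exact h03
      · exact h13 (fun h => hne (congrArg Sum.inr h))

/-- The big graph contains the paw. -/
theorem paw_in_big (N n : ℕ) (hn : 3 ≤ n) : Nonempty (Paw ↪g Big N n) := by
  let i0 : Fin n := ⟨0, by omega⟩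
  let i1 : Fin n := ⟨1, by omega⟩
  let i2 : Fin n := ⟨2, by omega⟩
  have h01 : i0 ≠ i1 := fun h => by simp [i0, i1] at h
  have h02 : i0 ≠ i2 := fun h => by simp [i0, i2] at h
  have h12 : i1 ≠ i2 := fun h => by simp [i1, i2] at h
  have hft : false ≠ true := by decide
  refine paw_emb (a := (Sum.inr i0, false)) (b := (Sum.inr i1, false)) (c := (Sum.inr i2, false))
    (d := (Sum.inr i0, true)) (big_same.2 h01) (big_same.2 h02) (big_same.2 h12)
    ((big_diff hft).2 rfl) (fun h => h01 ((big_diff hft).1 h).symm)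
    (fun h => h02 ((big_diff hft).1 h).symm) ?_ ?_
  · intro h
    exact hft (congrArg Prod.snd h).symm
  · intro h
    exact hft (congrArg Prod.snd h).symm

theorem paw_connected : Paw.Connected := by
  have h : ∀ a, Paw.Reachable 0 a := by
    intro a
    by_cases ha : a = 0
    · rw [ha]
    · exact SimpleGraph.Adj.reachable ⟨fun h => ha h.symm, Or.inl rfl⟩
  exact ⟨fun a b => (h a).symm.trans (h b)⟩

theorem big_connected (N n : ℕ) (hN : 2 ≤ N) : (Big N n).Connected := by
  let s : Pairs N := ⟨(⟨0, by omega⟩, ⟨1, by omega⟩), by simp [Fin.lt_def]⟩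
  have hft : false ≠ true := by decide
  have h1 : ∀ x : Pairs N ⊕ Fin n, (Big N n).Adj (Sum.inl s, true) (x, false) := by
    intro x
    refine (big_diff hft.symm).2 ?_
    rcases x with x | x <;> exact trivial
  have h2 : ∀ x : Pairs N ⊕ Fin n, (Big N n).Adj (Sum.inl s, false) (x, true) := by
    intro x
    refine (big_diff hft).2 ?_
    rcases x with x | x <;> exact trivial
  have h : ∀ v, (Big N n).Reachable (Sum.inl s, true) v := by
    rintro ⟨x, b⟩
    cases b
    · exact (h1 x).reachable
    · exact (h1 (Sum.inl s)).reachable.trans (h2 x).reachable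
  have : Nonempty ((Pairs N ⊕ Fin n) × Bool) := ⟨(Sum.inl s, true)⟩
  exact ⟨fun a b => (h a).symm.trans (h b)⟩

/-! ### The recolouring -/

theorem TF.pull {V W : Type*} {X : SimpleGraph V} {H : SimpleGraph W} {Q : V → Prop}
    {R : W → Prop} (g : V → W) (hg : ∀ u v, H.Adj (g u) (g v) ↔ X.Adj u v)
    (hQ : ∀ v, Q v → R (g v)) (h : TF H R) : TF X Q := by
  intro a b c ha hb hc hab hbc hac
  exact h _ _ _ (hQ a ha) (hQ b hb) (hQ c hc) ((hg _ _).2 hab) ((hg _ _).2 hbc) ((hg _ _).2 hac)

theorem PF.pull {V W : Type*} {X : SimpleGraph V} {H : SimpleGraph W} {Q : V → Prop}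
    {R : W → Prop} (g : V → W) (hg : ∀ u v, H.Adj (g u) (g v) ↔ X.Adj u v)
    (hQ : ∀ v, Q v → R (g v)) (h : PF H R) : PF X Q := by
  intro a b c d ha hb hc hd hab hbc hcd hac had hbd
  exact h _ _ _ _ (hQ a ha) (hQ b hb) (hQ c hc) (hQ d hd) ((hg _ _).2 hab) ((hg _ _).2 hbc)
    ((hg _ _).2 hcd) (fun h' => hac ((hg _ _).1 h')) (fun h' => had ((hg _ _).1 h'))
    (fun h' => hbd ((hg _ _).1 h'))

/-- `w` lies in no triangle inside its own colour class. -/
def NoTri {W κ : Type*} (H : SimpleGraph W) (c : W → κ) (w : W) : Prop :=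
  ¬ ∃ x y, c x = c w ∧ c y = c w ∧ H.Adj w x ∧ H.Adj w y ∧ H.Adj x y

theorem tf_class {W κ : Type*} (H : SimpleGraph W) (c : W → κ) (i : κ) :
    TF H (fun w => c w = i ∧ NoTri H c w) := by
  intro x y z hx hy hz hxy hyz hxz
  exact hx.2 ⟨y, z, hy.1.trans hx.1.symm, hz.1.trans hx.1.symm, hxy, hxz, hyz⟩

theorem pf_class {W κ : Type*} (H : SimpleGraph W) (c : W → κ) (hc : IsFreeColoring H Paw c)
    (i : κ) : PF H (fun w => c w = i ∧ ¬ NoTri H c w) := by
  intro x y z u hx hy hz hu hxy hyz hzu hxz hxu hyu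
  have hy2 : ∃ a b, c a = c y ∧ c b = c y ∧ H.Adj y a ∧ H.Adj y b ∧ H.Adj a b := by
    have := hy.2
    unfold NoTri at this
    rwa [not_not] at this
  obtain ⟨a, b, ha, hb, hya, hyb, hab⟩ := hy2
  exact no_path (X := H.induce {v | c v = i}) (hc i) (a := ⟨x, hx.1⟩) (b := ⟨y, hy.1⟩)
    (c := ⟨z, hz.1⟩) (d := ⟨u, hu.1⟩) hxy hyz hzu hxz hxu hyu
    ⟨⟨a, ha.trans hy.1⟩, ⟨b, hb.trans hy.1⟩, hya, hyb, hab⟩

open Classical in
/-- The colouring with one colour less. -/
noncomputable def recol {W : Type*} (H : SimpleGraph W) {k : ℕ} (c : W → Fin (k + 3)) (w : W) :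
    Fin (k + 2) :=
  if h : (c w).val < 3 then (if ((c w).val < 2 ↔ NoTri H c w) then 0 else 1)
  else ⟨(c w).val - 1, by omega⟩

/-- **Recolouring.** If the vertices of `H` split into `k + 3` sets without paw, then they split
into `k + 2` sets without the big graph. -/
theorem recolour {M k : ℕ} (hM : 32 < M) {W : Type*} (H : SimpleGraph W) (c : W → Fin (k + 3))
    (hc : IsFreeColoring H Paw c) :
    ∃ c' : W → Fin (k + 2), IsFreeColoring H (Big M 11) c' := by
  classical
  refine ⟨recol H c, fun i => ⟨fun f => ?_⟩⟩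
  let g : (Pairs M ⊕ Fin 11) × Bool → W := fun v => (f v).1
  have hg : ∀ u v, H.Adj (g u) (g v) ↔ (Big M 11).Adj u v := fun u v => f.map_adj_iff
  have hgi : ∀ v, recol H c (g v) = i := fun v => (f v).2
  let p : (Pairs M ⊕ Fin 11) × Bool → Fin 3 := fun v =>
    if (c (g v)).val = 0 then 0 else if (c (g v)).val = 1 then 1 else 2
  have hp0 : ∀ v, p v = 0 → (c (g v)).val = 0 := by
    intro v hv
    by_contra h
    simp only [p, if_neg h] at hv
    split_ifs at hv
    all_goals exact absurd hv (by decide)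
  have hp1 : ∀ v, p v = 1 → (c (g v)).val = 1 := by
    intro v hv
    by_contra h
    simp only [p, if_neg h] at hv
    split_ifs at hv
    all_goals exact absurd hv (by decide)
  have hp2 : ∀ v, p v = 2 → 2 ≤ (c (g v)).val := by
    intro v hv
    by_contra h
    simp only [p] at hv
    split_ifs at hv with h1 h2
    · exact absurd hv (by decide)
    · exact absurd hv (by decide)
    · omega
  rcases Nat.lt_or_ge i.val 2 with hi | hi
  · -- all vertices have one of the first three colours
    have hlt : ∀ v, (c (g v)).val < 3 := by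
      intro v
      by_contra h
      have h1 := hgi v
      unfold recol at h1
      rw [dif_neg h] at h1
      have h2 := congrArg Fin.val h1
      simp only at h2
      omega
    have hval : ∀ v, (if ((c (g v)).val < 2 ↔ NoTri H c (g v)) then (0 : Fin (k + 2)) else 1) = i := by
      intro v
      have h1 := hgi v
      unfold recol at h1
      rwa [dif_pos (hlt v)] at h1
    rcases Nat.lt_or_ge i.val 1 with hi0 | hi1
    · have hT : ∀ v, ((c (g v)).val < 2 ↔ NoTri H c (g v)) := by
        intro v
        by_contra h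
        have h1 := hval v
        rw [if_neg h] at h1
        have h2 := congrArg Fin.val h1
        simp at h2
        omega
      refine no_part_one p ?_ ?_ ?_
      · refine TF.pull g hg (R := fun w => c w = 0 ∧ NoTri H c w) ?_ (tf_class H c 0)
        intro v hv
        have h1 := hp0 v hv
        exact ⟨Fin.ext h1, (hT v).1 (by omega)⟩
      · refine TF.pull g hg (R := fun w => c w = 1 ∧ NoTri H c w) ?_ (tf_class H c 1)
        intro v hv
        have h1 := hp1 v hv
        exact ⟨Fin.ext (by rw [h1]; rfl), (hT v).1 (by omega)⟩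
      · refine PF.pull g hg (R := fun w => c w = 2 ∧ ¬ NoTri H c w) ?_ (pf_class H c hc 2)
        intro v hv
        have h1 := hp2 v hv
        have h2 := hlt v
        refine ⟨Fin.ext ?_, fun h => ?_⟩
        · have : (c (g v)).val = 2 := by omega
          rw [this]
          rfl
        · have := (hT v).2 h
          omega
    · have hT : ∀ v, ¬ ((c (g v)).val < 2 ↔ NoTri H c (g v)) := by
        intro v h
        have h1 := hval v
        rw [if_pos h] at h1
        have h2 := congrArg Fin.val h1
        simp at h2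
        omega
      refine no_part_two hM p ?_ ?_ ?_
      · refine PF.pull g hg (R := fun w => c w = 0 ∧ ¬ NoTri H c w) ?_ (pf_class H c hc 0)
        intro v hv
        have h1 := hp0 v hv
        exact ⟨Fin.ext h1, fun h => hT v ⟨fun _ => h, fun _ => by omega⟩⟩
      · refine PF.pull g hg (R := fun w => c w = 1 ∧ ¬ NoTri H c w) ?_ (pf_class H c hc 1)
        intro v hv
        have h1 := hp1 v hv
        exact ⟨Fin.ext (by rw [h1]; rfl), fun h => hT v ⟨fun _ => h, fun _ => by omega⟩⟩
      · refine TF.pull g hg (R := fun w => c w = 2 ∧ NoTri H c w) ?_ (tf_class H c 2)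
        intro v hv
        have h1 := hp2 v hv
        have h2 := hlt v
        refine ⟨Fin.ext ?_, ?_⟩
        · have : (c (g v)).val = 2 := by omega
          rw [this]
          rfl
        · by_contra h
          exact hT v ⟨fun h' => by omega, fun h' => (h h').elim⟩
  · -- all vertices have the same old colour
    have hv : ∀ v, (c (g v)).val = i.val + 1 := by
      intro v
      have h1 := hgi v
      unfold recol at h1
      by_cases h : (c (g v)).val < 3
      · rw [dif_pos h] at h1
        split_ifs at h1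
        · have h2 := congrArg Fin.val h1
          simp at h2
          omega
        · have h2 := congrArg Fin.val h1
          simp at h2
          omega
      · rw [dif_neg h] at h1
        have h2 := congrArg Fin.val h1
        simp only at h2
        omega
    obtain ⟨e⟩ := paw_in_big M 11 (by norm_num)
    have hi2 : i.val + 1 < k + 3 := by omega
    refine (hc ⟨i.val + 1, hi2⟩).false ⟨⟨fun a => ⟨g (e a), Fin.ext (hv (e a))⟩, ?_⟩, ?_⟩
    · intro a b hab
      have h1 : g (e a) = g (e b) := congrArg (fun z => z.1) hab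
      exact e.injective (f.injective (Subtype.ext h1))
    · intro a b
      change H.Adj (g (e a)) (g (e b)) ↔ Paw.Adj a b
      rw [hg, e.map_adj_iff]

/-! ### Consequences -/

/-- A colouring without paw is a colouring without any graph that contains the paw. -/
theorem free_of_paw {V W κ : Type*} {H : SimpleGraph W} {G : SimpleGraph V}
    (e : Nonempty (Paw ↪g G)) {c : W → κ} (hc : IsFreeColoring H Paw c) :
    IsFreeColoring H G c := by
  obtain ⟨e⟩ := e
  intro i
  exact ⟨fun f => (hc i).false (f.comp e)⟩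

/-- A nonempty graph containing `F` has no `F`-free colouring with at most one colour. -/
theorem two_le {U W : Type*} [Nonempty W] {H : SimpleGraph W} {F : SimpleGraph U}
    (e : Nonempty (F ↪g H)) {k : ℕ} (c : W → Fin k) (hc : IsFreeColoring H F c) : 2 ≤ k := by
  obtain ⟨e⟩ := e
  by_contra hk
  push Not at hk
  obtain ⟨w⟩ := ‹Nonempty W›
  have hk0 : 0 < k := (c w).pos
  have hall : ∀ x, c x = ⟨0, hk0⟩ := by
    intro x
    refine Fin.ext ?_
    have := (c x).isLt
    simp only
    omega
  refine (hc ⟨0, hk0⟩).false ⟨⟨fun u => ⟨e u, hall _⟩, ?_⟩, ?_⟩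
  · intro a b hab
    exact e.injective (congrArg (fun z => z.1) hab)
  · intro a b
    change H.Adj (e a) (e b) ↔ F.Adj a b
    exact e.map_adj_iff

/-- The big graph has paw-free chromatic number two and big-graph-free chromatic number two. -/
theorem related_two (M : ℕ) (hM : 2 ≤ M) :
    FreeChromaticNumberEq (Big M 11) Paw 2 ∧ FreeChromaticNumberEq (Big M 11) (Big M 11) 2 := by
  have hne : Nonempty ((Pairs M ⊕ Fin 11) × Bool) := ⟨(Sum.inr 0, false)⟩
  refine ⟨⟨⟨_, big_paw_free M 11⟩, ?_⟩, ⟨⟨_, free_of_paw (paw_in_big M 11 (by norm_num))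
    (big_paw_free M 11)⟩, ?_⟩⟩
  · rintro k ⟨c, hc⟩
    exact two_le (paw_in_big M 11 (by norm_num)) c hc
  · rintro k ⟨c, hc⟩
    exact two_le ⟨SimpleGraph.Embedding.refl⟩ c hc

/-- Recolouring in the form used by the results. -/
theorem recolour' {M n : ℕ} (hM : 32 < M) (hn : 3 ≤ n) {W : Type*} (H : SimpleGraph W)
    (h : ∃ c : W → Fin n, IsFreeColoring H Paw c) :
    ∃ c : W → Fin (n - 1), IsFreeColoring H (Big M 11) c := by
  obtain ⟨k, rfl⟩ : ∃ k, n = k + 3 := ⟨n - 3, by omega⟩
  obtain ⟨c, hc⟩ := h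
  exact recolour hM H c hc

theorem not_related {M n : ℕ} (hM : 32 < M) (hn : 3 ≤ n) {W : Type*} (H : SimpleGraph W) :
    ¬ (FreeChromaticNumberEq H Paw n ∧ FreeChromaticNumberEq H (Big M 11) n) := by
  rintro ⟨h1, h2⟩
  have h3 := h2.2 (recolour' hM hn H h1.1)
  omega

theorem related_one {U V : Type*} [Finite U] [Nontrivial U] [Nontrivial V]
    (F : SimpleGraph U) (G : SimpleGraph V) :
    FreeChromaticNumberEq (⊥ : SimpleGraph (Fin 1)) F 1 ∧
      FreeChromaticNumberEq (⊥ : SimpleGraph (Fin 1)) G 1 := by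
  have key : ∀ (X : Type _) [Nontrivial X] (E : SimpleGraph X) (i : Fin 1),
      IsEmpty (E ↪g (⊥ : SimpleGraph (Fin 1)).induce {v | (fun _ => (0 : Fin 1)) v = i}) := by
    intro X _ E i
    refine ⟨fun f => ?_⟩
    obtain ⟨x, y, hxy⟩ := exists_pair_ne X
    exact hxy (f.injective (Subtype.ext (Subsingleton.elim _ _)))
  have key' : ∀ (X : Type _) [Nontrivial X] (E : SimpleGraph X) (i : Fin 1),
      IsEmpty (E ↪g (⊥ : SimpleGraph (Fin 1)).induce {v | (fun _ => (0 : Fin 1)) v = i}) := by
    intro X _ E i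
    refine ⟨fun f => ?_⟩
    obtain ⟨x, y, hxy⟩ := exists_pair_ne X
    exact hxy (f.injective (Subtype.ext (Subsingleton.elim _ _)))
  refine ⟨⟨⟨fun _ => 0, key U F⟩, ?_⟩, ⟨⟨fun _ => 0, key' V G⟩, ?_⟩⟩
  · rintro k ⟨c, -⟩
    exact (c 0).pos
  · rintro k ⟨c, -⟩
    exact (c 0).pos

end Pool.Agent.R55.PawGraph
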