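import Mathlib

/-!
# Critical edges at regular vertices of Schrijver graphs: the explicit colouring
-/

set_option autoImplicit false

namespace Pool.Agent.R55.SGCol

open Finset

variable {n : ℕ}

/-- position of `x` on the cycle, counted from the base point `b` -/
def pos (b x : ZMod n) : ℕ := (x - b).val

lemma pos_inj [NeZero n] {b x y : ZMod n} (h : pos b x = pos b y) : x = y := by
  have := ZMod.val_injective n h
  simpa using this

lemma pos_sub_one [NeZero n] {b x : ZMod n} (h : x ≠ b) : pos b (x - 1) + 1 = pos b x := by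
  unfold pos
  have h0 : x - b ≠ 0 := sub_ne_zero.2 h
  have e : x - 1 - b = x - b - 1 := by ring
  rw [e]
  set y := x - b with hy
  have hy0 : y.val ≠ 0 := by
    intro h1
    exact h0 ((ZMod.val_eq_zero y).1 h1)
  have hlt := ZMod.val_lt y
  have h2 : y - 1 = ((y.val - 1 : ℕ) : ZMod n) := by
    rw [Nat.cast_sub (by omega), ZMod.natCast_val, ZMod.cast_id, Nat.cast_one]
  rw [h2, ZMod.val_natCast, Nat.mod_eq_of_lt (by omega)]
  omega

lemma pos_sub_one_lt [NeZero n] {b x : ZMod n} (h : x ≠ b) : pos b (x - 1) < pos b x := by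
  have := pos_sub_one h
  omega

/-- The combinatorial setting. -/
structure Sett (n k : ℕ) (V W : Finset (ZMod n)) : Prop where
  hV : V.card = k
  hW : W.card = k
  sV : ∀ i ∈ V, i + 1 ∉ V
  sW : ∀ i ∈ W, i + 1 ∉ W
  disj : Disjoint V W
  reg : ∀ i : ZMod n, i ∈ V ∨ i + 1 ∈ V ∨ i + 2 ∈ V

variable {k : ℕ} {V W : Finset (ZMod n)}

lemma Sett.nd (h : Sett n k V W) {x : ZMod n} (hx : x ∈ V) : x ∉ W := fun h2 =>
  Finset.disjoint_left.1 h.disj hx h2

lemma Sett.sV' (h : Sett n k V W) {x : ZMod n} (hx : x ∈ V) : x - 1 ∉ V := fun h2 =>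
  h.sV _ h2 (by simpa using hx)

lemma Sett.sW' (h : Sett n k V W) {x : ZMod n} (hx : x ∈ W) : x - 1 ∉ W := fun h2 =>
  h.sW _ h2 (by simpa using hx)

/-- every gap of `V` contains an element of `W` -/
lemma Sett.f1 (h : Sett n k V W) {v : ZMod n} (hv : v ∈ V) : v + 1 ∈ W ∨ v + 2 ∈ W := by
  classical
  let g : ZMod n → ZMod n := fun w => if w - 1 ∈ V then w - 1 else w - 2
  have hg : ∀ w ∈ W, g w ∈ V := by
    intro w hw
    simp only [g]
    split_ifs with h1
    · exact h1
    · have h2 := h.reg (w - 2)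
      have e1 : w - 2 + 1 = w - 1 := by ring
      have e2 : w - 2 + 2 = w := by ring
      rw [e1, e2] at h2
      rcases h2 with h2 | h2 | h2
      · exact h2
      · exact absurd h2 h1
      · exact absurd hw (h.nd h2)
  have hinj : Set.InjOn g W := by
    intro w hw w' hw' e
    rw [Finset.mem_coe] at hw hw'
    simp only [g] at e
    split_ifs at e with h1 h2 h2
    · exact sub_left_injective e
    · exfalso
      have : w' - 1 = w := by
        have : w' - 2 + 1 = w - 1 + 1 := by rw [e]
        rw [sub_add_cancel] at this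
        rw [← this]; ring
      exact h.sW' hw' (this ▸ hw)
    · exfalso
      have : w - 1 = w' := by
        have : w - 2 + 1 = w' - 1 + 1 := by rw [e]
        rw [sub_add_cancel] at this
        rw [← this]; ring
      exact h.sW' hw (this ▸ hw')
    · exact sub_left_injective e
  have himg : W.image g = V := by
    refine Finset.eq_of_subset_of_card_le ?_ ?_
    · intro x hx
      obtain ⟨w, hw, rfl⟩ := Finset.mem_image.1 hx
      exact hg w hw
    · rw [Finset.card_image_of_injOn hinj, h.hV, h.hW]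
  rw [← himg] at hv
  obtain ⟨w, hw, e⟩ := Finset.mem_image.1 hv
  simp only [g] at e
  split_ifs at e
  · left; rw [← e, sub_add_cancel]; exact hw
  · right; rw [← e, sub_add_cancel]; exact hw

lemma Sett.f2 (h : Sett n k V W) {u : ZMod n} (huV : u ∉ V) (huW : u ∉ W) :
    (u - 1 ∈ V ∧ u + 1 ∈ W) ∨ (u - 1 ∈ W ∧ u + 1 ∈ V) := by
  by_cases h1 : u - 1 ∈ V
  · left
    refine ⟨h1, ?_⟩
    have h2 := h.f1 h1
    have e1 : u - 1 + 1 = u := by ring
    have e2 : u - 1 + 2 = u + 1 := by ring
    rw [e1, e2] at h2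
    exact h2.resolve_left huW
  · right
    have h3 := h.reg (u - 1)
    have e1 : u - 1 + 1 = u := by ring
    have e2 : u - 1 + 2 = u + 1 := by ring
    rw [e1, e2] at h3
    have h4 := h.reg (u - 2)
    have e3 : u - 2 + 1 = u - 1 := by ring
    have e4 : u - 2 + 2 = u := by ring
    rw [e3, e4] at h4
    refine ⟨?_, ?_⟩
    · have h5 : u - 2 ∈ V := by tauto
      have h6 := h.f1 h5
      rw [e3, e4] at h6
      tauto
    · tauto

lemma Sett.f3 (h : Sett n k V W) {u : ZMod n} (huV : u ∉ V) (h1 : u - 1 ∈ W) : u - 2 ∈ V := by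
  have h4 := h.reg (u - 2)
  have e3 : u - 2 + 1 = u - 1 := by ring
  have e4 : u - 2 + 2 = u := by ring
  rw [e3, e4] at h4
  rcases h4 with h4 | h4 | h4
  · exact h4
  · exact absurd h1 (h.nd h4)
  · exact absurd h4 huV

lemma Sett.f4 (h : Sett n k V W) {w : ZMod n} (hw : w ∈ W) (h1 : w - 1 ∉ V) (h2 : w + 1 ∉ V) :
    False := by
  have h4 := h.reg (w - 1)
  have e3 : w - 1 + 1 = w := by ring
  have e4 : w - 1 + 2 = w + 1 := by ring
  rw [e3, e4] at h4
  rcases h4 with h4 | h4 | h4
  · exact h1 h4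
  · exact h.nd h4 hw
  · exact h2 h4

/-- `S` is moved to the colour of `M`. -/
def Mv (b : ZMod n) (V W S : Finset (ZMod n)) (M : ZMod n) : Prop :=
  M ∉ V ∧ M ∉ W ∧ S ⊆ V ∪ W ∧ M - 1 ∉ S ∧ M + 1 ∉ S ∧
    ((∀ x, pos b x < pos b M → (x ∈ S ↔ x ∈ V)) ∨ (∀ x, pos b x < pos b M → (x ∈ S ↔ x ∈ W)))

lemma union_eq (h : Sett n k V W) {S T : Finset (ZMod n)} (hS : S.card = k) (hT : T.card = k)
    (hSU : S ⊆ V ∪ W) (hTU : T ⊆ V ∪ W) (hd : Disjoint S T) : S ∪ T = V ∪ W := by
  refine Finset.eq_of_subset_of_card_le (Finset.union_subset hSU hTU) ?_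
  rw [Finset.card_union_of_disjoint hd, Finset.card_union_of_disjoint h.disj, hS, hT, h.hV, h.hW]

/-- two sets moved to the same colour meet -/
lemma class2 (h : Sett n k V W) {b M : ZMod n} {S T : Finset (ZMod n)} (hS : S.card = k)
    (hT : T.card = k) (hSM : Mv b V W S M) (hTM : Mv b V W T M) (hd : Disjoint S T) : False := by
  have hU := union_eq h hS hT hSM.2.2.1 hTM.2.2.1 hd
  have h1 : M - 1 ∈ V ∪ W := by
    rw [Finset.mem_union]
    rcases h.f2 hSM.1 hSM.2.1 with h2 | h2
    · exact Or.inl h2.1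
    · exact Or.inr h2.1
  rw [← hU, Finset.mem_union] at h1
  rcases h1 with h1 | h1
  · exact hSM.2.2.2.1 h1
  · exact hTM.2.2.2.1 h1

/-- of two disjoint sets avoiding all the missing elements, one is moved, unless they are `V`
and `W` -/
lemma class3 [NeZero n] (h : Sett n k V W) {b : ZMod n} (hb : b ∈ V) {S T : Finset (ZMod n)}
    (hS : S.card = k) (hT : T.card = k) (sS : ∀ i ∈ S, i + 1 ∉ S) (sT : ∀ i ∈ T, i + 1 ∉ T)
    (hSU : S ⊆ V ∪ W) (hTU : T ⊆ V ∪ W) (hd : Disjoint S T) (hbS : b ∈ S) (hne : S ≠ V) :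
    ∃ M, Mv b V W S M ∨ Mv b V W T M := by
  classical
  have hU := union_eq h hS hT hSU hTU hd
  -- the first place where `S` and `V` differ
  have hex : ((V ∪ W).filter fun x => ¬ (x ∈ S ↔ x ∈ V)).Nonempty := by
    by_contra hcon
    rw [Finset.not_nonempty_iff_eq_empty, Finset.filter_eq_empty_iff] at hcon
    apply hne
    ext x
    constructor
    · intro hx
      have := hcon (hSU hx)
      rw [not_not] at this
      exact this.1 hx
    · intro hx
      have := hcon (Finset.mem_union_left W hx)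
      rw [not_not] at this
      exact this.2 hx
  obtain ⟨p, hp, hmin⟩ := Finset.exists_min_image _ (pos b) hex
  rw [Finset.mem_filter] at hp
  obtain ⟨hpU, hps⟩ := hp
  have hmin' : ∀ x, x ∈ V ∪ W → pos b x < pos b p → (x ∈ S ↔ x ∈ V) := by
    intro x hx hlt
    by_contra hc
    have := hmin x (Finset.mem_filter.2 ⟨hx, hc⟩)
    omega
  have hpb : p ≠ b := by
    rintro rfl
    exact hps ⟨fun _ => hb, fun _ => hbS⟩
  have hpos := pos_sub_one hpb
  -- membership facts
  have hVU : ∀ x ∈ V, x ∈ V ∪ W := fun x hx => Finset.mem_union_left _ hx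
  have hWU : ∀ x ∈ W, x ∈ V ∪ W := fun x hx => Finset.mem_union_right _ hx
  have hcomp : ∀ x ∈ V ∪ W, x ∉ S → x ∈ T := by
    intro x hx hxS
    rw [← hU, Finset.mem_union] at hx
    exact hx.resolve_left hxS
  have hST : ∀ x ∈ S, x ∉ T := fun x hx hx' => Finset.disjoint_left.1 hd hx hx'
  have hp1 : p - 1 + 1 = p := by ring
  -- `M = p - 1` is a missing element
  have hMU : p - 1 ∉ V ∪ W := by
    intro hM
    have hsM := hmin' (p - 1) hM (by omega)
    apply hps
    rw [Finset.mem_union] at hM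
    rcases hM with hM | hM
    · -- `p - 1 ∈ V`
      have hpV : p ∉ V := fun hc => h.sV' hc hM
      have hMS : p - 1 ∈ S := hsM.2 hM
      have hpS : p ∉ S := by
        have := sS _ hMS
        rwa [hp1] at this
      exact ⟨fun hc => absurd hc hpS, fun hc => absurd hc hpV⟩
    · have hMV : p - 1 ∉ V := fun hc => h.nd hc hM
      have hMS : p - 1 ∉ S := fun hc => hMV (hsM.1 hc)
      have hMT : p - 1 ∈ T := hcomp _ (hWU _ hM) hMS
      have hpT : p ∉ T := by
        have := sT _ hMT
        rwa [hp1] at this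
      have hpS : p ∈ S := by
        by_contra hc
        exact hpT (hcomp _ hpU hc)
      have hpW : p ∉ W := by
        have := h.sW _ hM
        rwa [hp1] at this
      have hpV : p ∈ V := by
        rw [Finset.mem_union] at hpU
        exact hpU.resolve_right hpW
      exact ⟨fun _ => hpV, fun _ => hpS⟩
  have hMV : p - 1 ∉ V := fun hc => hMU (hVU _ hc)
  have hMW : p - 1 ∉ W := fun hc => hMU (hWU _ hc)
  have hMb : p - 1 ≠ b := by
    rintro e
    rw [e] at hMV
    exact hMV hb
  have hM1 := pos_sub_one_lt hMb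
  refine ⟨p - 1, ?_⟩
  have hall : ∀ x, pos b x < pos b (p - 1) → (x ∈ S ↔ x ∈ V) := by
    intro x hx
    by_cases hxU : x ∈ V ∪ W
    · exact hmin' x hxU (by omega)
    · exact ⟨fun hc => absurd (hSU hc) hxU, fun hc => absurd (hVU x hc) hxU⟩
  rcases h.f2 hMV hMW with ⟨ha, hb'⟩ | ⟨ha, hb'⟩
  · -- type a
    rw [hp1] at hb'
    have hpV : p ∉ V := fun hc => h.nd hc hb'
    have hpS : p ∈ S := by
      by_contra hc
      exact hps ⟨fun hc' => absurd hc' hc, fun hc' => absurd hc' hpV⟩
    have hM1S : p - 1 - 1 ∈ S := (hall _ hM1).2 ha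
    right
    refine ⟨hMV, hMW, hTU, hST _ hM1S, ?_, Or.inr ?_⟩
    · rw [hp1]; exact hST _ hpS
    · intro x hx
      constructor
      · intro hxT
        have hxU := hTU hxT
        have hxS : x ∉ S := fun hc => hST _ hc hxT
        have hxV : x ∉ V := fun hc => hxS ((hall x hx).2 hc)
        rw [Finset.mem_union] at hxU
        exact hxU.resolve_left hxV
      · intro hxW
        have hxV : x ∉ V := fun hc => h.nd hc hxW
        exact hcomp _ (hWU _ hxW) (fun hc => hxV ((hall x hx).1 hc))
  · -- type b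
    rw [hp1] at hb'
    left
    refine ⟨hMV, hMW, hSU, ?_, ?_, Or.inl hall⟩
    · intro hc
      exact h.nd ((hall _ hM1).1 hc) ha
    · rw [hp1]
      intro hc
      exact hps ⟨fun _ => hb', fun _ => hc⟩

/-- every set containing a missing element can keep one of its star colours -/
lemma class1 [NeZero n] (h : Sett n k V W) {b : ZMod n} (hb : b ∈ V) {T : Finset (ZMod n)}
    (hT : T.card = k) (sT : ∀ i ∈ T, i + 1 ∉ T) (hTD : ∃ x ∈ T, x ∉ V ∧ x ∉ W) :
    ∃ j ∈ T, j ∉ V ∧ j ∉ W ∧
      ∀ S : Finset (ZMod n), S.card = k → Mv b V W S j → ¬ Disjoint T S := by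
  classical
  by_contra hcon
  push Not at hcon
  have sT' : ∀ i ∈ T, i - 1 ∉ T := fun i hi hi' => sT _ hi' (by simpa using hi)
  obtain ⟨M, hM, hmax⟩ := Finset.exists_max_image (T.filter fun x => x ∉ V ∧ x ∉ W) (pos b)
    (by obtain ⟨x, hx, hx'⟩ := hTD; exact ⟨x, Finset.mem_filter.2 ⟨hx, hx'⟩⟩)
  rw [Finset.mem_filter] at hM
  obtain ⟨hMT, hMV, hMW⟩ := hM
  obtain ⟨S, hSk, hSM, hTS⟩ := hcon M hMT hMV hMW
  obtain ⟨-, -, hSU, hS1, hS2, hS3⟩ := hSM
  have hmax' : ∀ t ∈ T, t ∉ V → t ∉ W → pos b t ≤ pos b M := fun t ht h1 h2 =>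
    hmax t (Finset.mem_filter.2 ⟨ht, h1, h2⟩)
  have hMb : M ≠ b := by rintro rfl; exact hMV hb
  have hne : ∀ t, t ∉ V → t ≠ b := by rintro t ht rfl; exact ht hb
  -- the target
  set S' := ((V ∪ W) \ S).erase (M + 1) with hS'
  have hM1U : M + 1 ∈ V ∪ W := by
    rw [Finset.mem_union]
    rcases h.f2 hMV hMW with h2 | h2
    · exact Or.inr h2.2
    · exact Or.inl h2.2
  have hcard : S'.card + 1 = k := by
    rw [hS', Finset.card_erase_of_mem (Finset.mem_sdiff.2 ⟨hM1U, hS2⟩),
      Finset.card_sdiff_of_subset hSU, Finset.card_union_of_disjoint h.disj, h.hV, h.hW, hSk]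
    have : 0 < k := by rw [← h.hV]; exact Finset.card_pos.2 ⟨b, hb⟩
    omega
  have hTU : ∀ t ∈ T, (t ∈ V ∨ t ∈ W) → t ∈ S' := by
    intro t ht htU
    rw [hS', Finset.mem_erase, Finset.mem_sdiff, Finset.mem_union]
    refine ⟨?_, htU, fun hc => Finset.disjoint_left.1 hTS ht hc⟩
    rintro rfl
    exact sT _ hMT ht
  have hdec : ∀ t, ¬ (t ∉ V ∧ t ∉ W) → t ∈ V ∨ t ∈ W := fun t ht => by tauto
  suffices hφ : ∃ φ : ZMod n → ZMod n, (∀ t ∈ T, φ t ∈ S') ∧ Set.InjOn φ T by
    obtain ⟨φ, h1, h2⟩ := hφ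
    have := Finset.card_le_card_of_injOn φ h1 h2
    omega
  rcases hS3 with hS3 | hS3
  · -- `S` agrees with `V` before `M`
    have hM1V : M - 1 ∉ V := fun hc => hS1 ((hS3 _ (pos_sub_one_lt hMb)).2 hc)
    obtain ⟨hM1W, hM2V⟩ : M - 1 ∈ W ∧ M + 1 ∈ V := by
      rcases h.f2 hMV hMW with h2 | h2
      · exact absurd h2.1 hM1V
      · exact h2
    refine ⟨fun t => if t ∉ V ∧ t ∉ W then (if t - 1 ∈ W then t - 1 else t + 1) else t, ?_, ?_⟩
    · intro t ht
      dsimp only
      have key : ∀ w ∈ W, pos b w < pos b M → w ∈ S' := by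
        intro w hw hlt
        rw [hS', Finset.mem_erase, Finset.mem_sdiff, Finset.mem_union]
        refine ⟨?_, Or.inr hw, fun hc => h.nd ((hS3 _ hlt).1 hc) hw⟩
        rintro rfl
        exact h.nd hM2V hw
      split_ifs with h1 h2
      · have h3 := pos_sub_one_lt (hne t h1.1)
        have h4 := hmax' t ht h1.1 h1.2
        exact key _ h2 (by omega)
      · obtain ⟨h3, h4⟩ : t - 1 ∈ V ∧ t + 1 ∈ W := by
          rcases h.f2 h1.1 h1.2 with h5 | h5
          · exact h5
          · exact absurd h5.1 h2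
        have h5 := hmax' t ht h1.1 h1.2
        have htM : t ≠ M := by rintro rfl; exact hM1V h3
        have h6 : t + 1 ≠ b := by
          rintro e
          rw [← e] at hb
          exact h.nd hb h4
        have h7 := pos_sub_one h6
        rw [add_sub_cancel_right] at h7
        have h8 : pos b (t + 1) ≠ pos b M := by
          intro e
          have := pos_inj e
          rw [this] at h4
          exact hMW h4
        have h9 : pos b t ≠ pos b M := fun e => htM (pos_inj e)
        exact key _ h4 (by omega)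
      · exact hTU t ht (hdec t h1)
    · intro t ht t' ht' e
      rw [Finset.mem_coe] at ht ht'
      dsimp only at e
      split_ifs at e with h1 h2 h3 h4 h3 h4 h3 h4
      · exact sub_left_injective e
      · -- t - 1 = t' + 1
        exfalso
        refine h.f4 h2 ?_ ?_
        · rw [e, add_sub_cancel_right]; exact h3.1
        · rw [sub_add_cancel]; exact h1.1
      · exfalso; exact sT' _ ht (e ▸ ht')
      · exfalso
        have h6 : t' - 1 ∈ W := by assumption
        refine h.f4 h6 ?_ ?_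
        · rw [← e, add_sub_cancel_right]; exact h1.1
        · rw [sub_add_cancel]; exact h3.1
      · exact add_left_injective _ e
      · exfalso; exact sT _ ht (e ▸ ht')
      · exfalso; exact sT' _ ht' (e ▸ ht)
      · exfalso; exact sT _ ht' (e ▸ ht)
      · exact e
  · -- `S` agrees with `W` before `M`
    have hM1W : M - 1 ∉ W := fun hc => hS1 ((hS3 _ (pos_sub_one_lt hMb)).2 hc)
    obtain ⟨hM1V, hM2W⟩ : M - 1 ∈ V ∧ M + 1 ∈ W := by
      rcases h.f2 hMV hMW with h2 | h2
      · exact h2
      · exact absurd h2.1 hM1W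
    refine ⟨fun t => if t ∉ V ∧ t ∉ W then (if t - 1 ∈ V then t - 1 else t - 2) else t, ?_, ?_⟩
    · intro t ht
      dsimp only
      have key : ∀ w ∈ V, pos b w < pos b M → w ∈ S' := by
        intro w hw hlt
        rw [hS', Finset.mem_erase, Finset.mem_sdiff, Finset.mem_union]
        refine ⟨?_, Or.inl hw, fun hc => h.nd hw ((hS3 _ hlt).1 hc)⟩
        rintro rfl
        exact h.nd hw hM2W
      split_ifs with h1 h2
      · have h3 := pos_sub_one_lt (hne t h1.1)
        have h4 := hmax' t ht h1.1 h1.2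
        exact key _ h2 (by omega)
      · obtain ⟨h3, h4⟩ : t - 1 ∈ W ∧ t + 1 ∈ V := by
          rcases h.f2 h1.1 h1.2 with h5 | h5
          · exact absurd h5.1 h2
          · exact h5
        have h5 := hmax' t ht h1.1 h1.2
        have h6 := pos_sub_one_lt (hne t h1.1)
        have h7 := pos_sub_one_lt (hne (t - 1) (fun hc => h.nd hc h3))
        have e2 : t - 1 - 1 = t - 2 := by ring
        rw [e2] at h7
        exact key _ (h.f3 h1.1 h3) (by omega)
      · exact hTU t ht (hdec t h1)
    · -- the key use of the other moved sets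
      have hkey : ∀ t ∈ T, t ∉ V → t ∉ W → t - 1 ∉ V → t - 2 ∉ T := by
        intro t ht htV htW ht1 hc
        have ht1W : t - 1 ∈ W := by
          rcases h.f2 htV htW with h5 | h5
          · exact absurd h5.1 ht1
          · exact h5.1
        obtain ⟨R, -, ⟨-, -, -, hR1, -, hR3⟩, hTR⟩ := hcon t ht htV htW
        have h6 := pos_sub_one_lt (hne t htV)
        have h7 := pos_sub_one_lt (hne (t - 1) ht1)
        have e2 : t - 1 - 1 = t - 2 := by ring
        rw [e2] at h7
        rcases hR3 with hR3 | hR3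
        · have := (hR3 (t - 2) (by omega)).2 (h.f3 htV ht1W)
          exact Finset.disjoint_left.1 hTR hc this
        · exact hR1 ((hR3 _ h6).2 ht1W)
      intro t ht t' ht' e
      rw [Finset.mem_coe] at ht ht'
      dsimp only at e
      have aux : ∀ x y : ZMod n, x - 1 = y - 2 → y - 1 = x := by
        intro x y hxy
        have : x = y - 2 + 1 := by rw [← hxy]; ring
        rw [this]; ring
      split_ifs at e with h1 h2 h3 h4 h3 h4 h3 h4
      · exact sub_left_injective e
      · exfalso
        have h6 : t' - 1 = t := aux t t' e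
        have h7 : t' - 1 ∈ W := by
          rcases h.f2 h3.1 h3.2 with h5 | h5
          · exact absurd h5.1 (by assumption)
          · exact h5.1
        rw [h6] at h7
        exact h1.2 h7
      · exfalso; exact sT' _ ht (e ▸ ht')
      · exfalso
        have h6 : t - 1 = t' := aux t' t e.symm
        have h7 : t - 1 ∈ W := by
          rcases h.f2 h1.1 h1.2 with h5 | h5
          · exact absurd h5.1 (by assumption)
          · exact h5.1
        rw [h6] at h7
        exact h3.2 h7
      · exact sub_left_injective e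
      · exfalso; exact hkey t ht h1.1 h1.2 (by assumption) (e ▸ ht')
      · exfalso; exact sT' _ ht' (e ▸ ht)
      · exfalso; exact hkey t' ht' (by tauto) (by tauto) (by assumption) (e ▸ ht)
      · exact e

end Pool.Agent.R55.SGCol
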