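import Mathlib
import Pool.Agent.H370R3.SphereTools
import Pool.Agent.R55.SGCol

/-!
# Schrijver's theorem: the stable Kneser graph `SG(n,k)` is not `(n - 2k + 1)`-colourable
-/

set_option autoImplicit false

namespace Pool.Agent.R55.SGLow

open Finset Polynomial Pool.Agent.H370R3.SphereTools

/-- an alternating sequence of length `m` in `[p, n)` starting with the sign `c` -/
def AltSeq (f : ℕ → ℝ) (n m p : ℕ) (c : ℝ) : Prop :=
  ∃ t : ℕ → ℕ, (∀ i < m, p ≤ t i ∧ t i < n) ∧ (∀ i, i + 1 < m → t i < t (i + 1)) ∧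
    ∀ i < m, 0 < c * (-1) ^ i * f (t i)

lemma AltSeq.cons {f : ℕ → ℝ} {n m p t0 : ℕ} {c : ℝ} (h : AltSeq f n m (t0 + 1) (-c))
    (hp : p ≤ t0) (hn : t0 < n) (h0 : 0 < c * f t0) : AltSeq f n (m + 1) p c := by
  obtain ⟨t, h1, h2, h3⟩ := h
  refine ⟨fun i => if i = 0 then t0 else t (i - 1), ?_, ?_, ?_⟩
  · intro i hi
    dsimp only
    split_ifs with h
    · exact ⟨hp, hn⟩
    · have := h1 (i - 1) (by omega)
      exact ⟨by omega, this.2⟩
  · intro i hi
    dsimp only
    rw [if_neg (Nat.succ_ne_zero i), Nat.add_sub_cancel]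
    split_ifs with h
    · subst h
      have := h1 0 (by omega)
      omega
    · have := h2 (i - 1) (by omega)
      rwa [Nat.sub_add_cancel (by omega)] at this
  · intro i hi
    dsimp only
    split_ifs with h
    · subst h
      simpa using h0
    · obtain ⟨j, rfl⟩ : ∃ j, i = j + 1 := ⟨i - 1, by omega⟩
      have := h3 j (by omega)
      rw [Nat.add_sub_cancel, pow_succ]
      calc 0 < -c * (-1) ^ j * f (t j) := this
        _ = c * ((-1) ^ j * -1) * f (t j) := by ring

lemma exists_poly (f : ℕ → ℝ) (n : ℕ) : ∀ (m p : ℕ) (c : ℝ), c * c = 1 →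
    ¬ AltSeq f n (m + 1) p c → ∃ Q : ℝ[X], Q.natDegree ≤ m ∧ (∀ i : ℕ, i < p → c * Q.eval (i : ℝ) < 0) ∧
      (∀ i : ℕ, Q.eval (i : ℝ) ≠ 0) ∧ ∀ i : ℕ, p ≤ i → i < n → 0 ≤ f i * Q.eval (i : ℝ) := by
  intro m
  induction m with
  | zero =>
    intro p c hc h
    refine ⟨Polynomial.C (-c), by simp, ?_, ?_, ?_⟩
    · intro i _
      rw [eval_C]
      nlinarith
    · intro i
      rw [eval_C]
      intro h0
      nlinarith
    · intro i hi1 hi2
      rw [eval_C]
      by_contra hcon
      apply h
      refine ⟨fun _ => i, fun _ _ => ⟨hi1, hi2⟩, fun j hj => by omega, fun j hj => ?_⟩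
      have : j = 0 := by omega
      subst this
      simp only [pow_zero, mul_one]
      nlinarith
  | succ m ih =>
    intro p c hc h
    by_cases hex : ∃ i, p ≤ i ∧ i < n ∧ 0 < c * f i
    · classical
      set t0 := Nat.find hex with ht0
      obtain ⟨hp, hn, hpos⟩ := Nat.find_spec hex
      rw [← ht0] at hp hn hpos
      have hmin : ∀ i, p ≤ i → i < t0 → i < n → c * f i ≤ 0 := by
        intro i h1 h2 h3
        have := Nat.find_min hex h2
        by_contra h4
        exact this ⟨h1, h3, not_le.mp h4⟩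
      obtain ⟨Q, hQ1, hQ2, hQ3, hQ4⟩ := ih (t0 + 1) (-c) (by nlinarith)
        (fun hA => h (hA.cons hp hn hpos))
      have hQ2' : ∀ i : ℕ, i ≤ t0 → 0 < c * Q.eval (i : ℝ) := by
        intro i hi
        have := hQ2 i (by omega)
        nlinarith
      have hlin : ∀ i : ℕ, (X - C ((t0 : ℝ) - 1 / 2)).eval (i : ℝ) = (i : ℝ) - t0 + 1 / 2 := by
        intro i
        rw [eval_sub, eval_X, eval_C]
        ring
      refine ⟨Q * (X - C ((t0 : ℝ) - 1 / 2)), ?_, ?_, ?_, ?_⟩
      · refine natDegree_mul_le.trans ?_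
        rw [natDegree_X_sub_C]
        omega
      · intro i hi
        rw [eval_mul, hlin]
        have h1 := hQ2' i (by omega)
        have h2 : (i : ℝ) + 1 ≤ t0 := by exact_mod_cast (by omega : i + 1 ≤ t0)
        have h3 : (i : ℝ) - t0 + 1 / 2 < 0 := by linarith
        have := mul_neg_of_pos_of_neg h1 h3
        linarith
      · intro i
        rw [eval_mul, hlin]
        refine mul_ne_zero (hQ3 i) ?_
        rcases lt_or_ge i t0 with h2 | h2
        · have h2 : (i : ℝ) + 1 ≤ t0 := by exact_mod_cast h2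
          have h3 : (i : ℝ) - t0 + 1 / 2 < 0 := by linarith
          exact h3.ne
        · have h2 : (t0 : ℝ) ≤ i := by exact_mod_cast h2
          have h3 : 0 < (i : ℝ) - t0 + 1 / 2 := by linarith
          exact h3.ne'
      · intro i hi1 hi2
        rw [eval_mul, hlin]
        have e : f i * Q.eval (i : ℝ) = (c * f i) * (c * Q.eval (i : ℝ)) := by
          calc f i * Q.eval (i : ℝ) = (c * c) * (f i * Q.eval (i : ℝ)) := by rw [hc, one_mul]
            _ = _ := by ring
        rw [← mul_assoc]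
        rcases lt_trichotomy i t0 with h2 | h2 | h2
        · have h1 := hQ2' i h2.le
          have h3 := hmin i hi1 h2 hi2
          have h4 : f i * Q.eval (i : ℝ) ≤ 0 := by
            rw [e]
            exact mul_nonpos_of_nonpos_of_nonneg h3 h1.le
          have h2 : (i : ℝ) + 1 ≤ t0 := by exact_mod_cast h2
          have h5 : (i : ℝ) - t0 + 1 / 2 ≤ 0 := by linarith
          exact mul_nonneg_of_nonpos_of_nonpos h4 h5
        · have h1 := hQ2' i h2.le
          have h4 : 0 ≤ f i * Q.eval (i : ℝ) := by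
            rw [e]
            exact mul_nonneg (by rw [h2]; exact hpos.le) h1.le
          refine mul_nonneg h4 ?_
          rw [h2, sub_self]
          norm_num
        · have h4 := hQ4 i (by omega) hi2
          have h2 : (t0 : ℝ) + 1 ≤ i := by exact_mod_cast h2
          exact mul_nonneg h4 (by linarith)
    · push Not at hex
      refine ⟨Polynomial.C (-c), by simp, ?_, ?_, ?_⟩
      · intro i _
        rw [eval_C]
        nlinarith
      · intro i
        rw [eval_C]
        intro h0
        nlinarith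
      · intro i hi1 hi2
        rw [eval_C]
        have := hex i hi1 hi2
        nlinarith

/-- the alternating sum of a polynomial of small degree -/
lemma alt_sum_zero (R : ℝ[X]) (N : ℕ) (h : R.natDegree < N) :
    ∑ i ∈ range (N + 1), (-1 : ℝ) ^ i * (N.choose i : ℝ) * R.eval (i : ℝ) = 0 := by
  have h1 := congrFun (Polynomial.fwdDiff_iter_eq_zero_of_degree_lt h) 0
  rw [fwdDiff_iter_eq_sum_shift, Pi.zero_apply] at h1
  have h2 : ∑ i ∈ range (N + 1), (-1 : ℝ) ^ i * (N.choose i : ℝ) * R.eval (i : ℝ) =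
      (-1 : ℝ) ^ N * ∑ k ∈ range (N + 1),
        ((-1 : ℤ) ^ (N - k) * (N.choose k : ℤ)) • R.eval (0 + k • (1 : ℝ)) := by
    rw [Finset.mul_sum]
    refine Finset.sum_congr rfl fun i hi => ?_
    have hi' : i ≤ N := by have := Finset.mem_range.1 hi; omega
    rw [zsmul_eq_mul, nsmul_eq_mul, mul_one, zero_add]
    push_cast
    have e : (-1 : ℝ) ^ N * (-1) ^ (N - i) = (-1) ^ i := by
      rw [← pow_add]
      have : N + (N - i) = i + 2 * (N - i) := by omega
      rw [this, pow_add, pow_mul]
      simp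
    rw [← mul_assoc, ← mul_assoc, e]
  rw [h2, h1, mul_zero]

/-- Gale's lemma in one dimension, in the form needed here -/
theorem gale (P : ℝ[X]) (hP : P ≠ 0) (n k d : ℕ) (hk : 1 ≤ k) (hn : n = 2 * k + d)
    (hd : P.natDegree ≤ d) :
    ∃ c : ℝ, c * c = 1 ∧ AltSeq (fun i => (-1 : ℝ) ^ i * P.eval (i : ℝ)) n (2 * k) 0 c := by
  classical
  set f : ℕ → ℝ := fun i => (-1 : ℝ) ^ i * P.eval (i : ℝ) with hf
  have hex : ∃ i, i < n ∧ f i ≠ 0 := by
    by_contra hcon
    push Not at hcon
    have hz : ∀ i < n, P.eval (i : ℝ) = 0 := by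
      intro i hi
      have := hcon i hi
      simp only [hf] at this
      rcases mul_eq_zero.1 this with h | h
      · exact absurd h (pow_ne_zero _ (by norm_num))
      · exact h
    have hmaps : ∀ i ∈ range n, ((i : ℕ) : ℝ) ∈ P.roots.toFinset := by
      intro i hi
      rw [Multiset.mem_toFinset, mem_roots hP, IsRoot]
      exact hz i (Finset.mem_range.1 hi)
    have h1 : (range n).card ≤ P.roots.toFinset.card :=
      Finset.card_le_card_of_injOn (fun i : ℕ => (i : ℝ)) hmaps
        (fun a _ b _ h => Nat.cast_injective h)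
    have h2 := Multiset.toFinset_card_le P.roots
    have h3 := card_roots' P
    rw [Finset.card_range] at h1
    omega
  set t0 := Nat.find hex with ht0
  obtain ⟨ht0n, hne⟩ := Nat.find_spec hex
  rw [← ht0] at ht0n hne
  have hmin : ∀ i < t0, f i = 0 := by
    intro i hi
    have := Nat.find_min hex hi
    by_contra h
    exact this ⟨by omega, h⟩
  obtain ⟨c, hc, hct⟩ : ∃ c : ℝ, c * c = 1 ∧ 0 < c * f t0 := by
    rcases lt_or_gt_of_ne hne with h | h
    · exact ⟨-1, by norm_num, by linarith⟩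
    · exact ⟨1, by norm_num, by linarith⟩
  refine ⟨c, hc, ?_⟩
  by_contra hcon
  obtain ⟨Q, hQ1, hQ2, hQ3, hQ4⟩ := exists_poly f n (2 * k - 2) (t0 + 1) (-c) (by nlinarith) (by
    intro hA
    rw [show 2 * k - 2 + 1 = 2 * k - 1 by omega] at hA
    have := hA.cons (Nat.zero_le _) ht0n hct
    rw [show 2 * k - 1 + 1 = 2 * k by omega] at this
    exact hcon this)
  have hsum := alt_sum_zero (P * Q) (n - 1) (by
    refine lt_of_le_of_lt natDegree_mul_le ?_
    omega)
  rw [show n - 1 + 1 = n by omega] at hsum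
  have hpos : 0 < ∑ i ∈ range n, (-1 : ℝ) ^ i * ((n - 1).choose i : ℝ) * (P * Q).eval (i : ℝ) := by
    have e : ∀ i : ℕ, (-1 : ℝ) ^ i * ((n - 1).choose i : ℝ) * (P * Q).eval (i : ℝ) =
        ((n - 1).choose i : ℝ) * (f i * Q.eval (i : ℝ)) := by
      intro i
      simp only [hf, eval_mul]
      ring
    have h0 : 0 < f t0 * Q.eval (t0 : ℝ) := by
      have h1 := hQ2 t0 (by omega)
      have h2 : 0 < c * Q.eval (t0 : ℝ) := by nlinarith
      have h3 := mul_pos hct h2
      calc 0 < c * f t0 * (c * Q.eval (t0 : ℝ)) := h3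
        _ = (c * c) * (f t0 * Q.eval (t0 : ℝ)) := by ring
        _ = _ := by rw [hc, one_mul]
    refine Finset.sum_pos' ?_ ⟨t0, Finset.mem_range.2 ht0n, ?_⟩
    · intro i hi
      rw [e]
      refine mul_nonneg (Nat.cast_nonneg _) ?_
      rcases lt_trichotomy i t0 with h | h | h
      · rw [hmin i h, zero_mul]
      · rw [h]; exact h0.le
      · exact hQ4 i h (Finset.mem_range.1 hi)
    · rw [e]
      refine mul_pos ?_ h0
      exact_mod_cast Nat.choose_pos (by omega)
  exact absurd hsum hpos.ne'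

end Pool.Agent.R55.SGLow
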